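import Pool.Agent.MP_755d6b_an.H98.Std

/-!
# The group von Neumann algebra on `ℓ²(G)`
-/

namespace Pool.Agent.MP_755d6b_an.H98

open Filter Topology
open scoped ComplexOrder InnerProductSpace Classical

/-- The Hilbert space `ℓ²(G)`. -/
def L2 (G : Type) : Type := lp (fun _ : G => ℂ) 2

section Basic

variable {G : Type}

noncomputable instance : NormedAddCommGroup (L2 G) :=
  inferInstanceAs (NormedAddCommGroup (lp (fun _ : G => ℂ) 2))

noncomputable instance : InnerProductSpace ℂ (L2 G) :=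
  inferInstanceAs (InnerProductSpace ℂ (lp (fun _ : G => ℂ) 2))

instance : CompleteSpace (L2 G) := inferInstanceAs (CompleteSpace (lp (fun _ : G => ℂ) 2))

/-- The underlying function. -/
@[coe] def L2.val (ξ : L2 G) : G → ℂ := ξ.1

instance : CoeFun (L2 G) (fun _ => G → ℂ) := ⟨L2.val⟩

theorem L2.ext {ξ η : L2 G} (h : (ξ : G → ℂ) = η) : ξ = η := Subtype.ext h

@[simp] theorem L2.smul_apply (c : ℂ) (ξ : L2 G) (x : G) : (c • ξ) x = c * ξ x := rfl

@[simp] theorem L2.add_apply (ξ η : L2 G) (x : G) : (ξ + η) x = ξ x + η x := rfl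

@[simp] theorem L2.zero_apply (x : G) : (0 : L2 G) x = 0 := rfl

theorem hasSum_sq (ξ : L2 G) : HasSum (fun x => ‖ξ x‖ ^ 2) (‖ξ‖ ^ 2) := by
  have := lp.hasSum_norm (p := 2) (by norm_num) ξ
  simp only [ENNReal.toReal_ofNat, Real.rpow_ofNat] at this
  exact this

theorem memL2 {f : G → ℂ} (hf : Summable fun x => ‖f x‖ ^ 2) : Memℓp f 2 :=
  memℓp_gen (by simpa using hf)

theorem hasSum_inner' (ξ η : L2 G) :
    HasSum (fun x => (starRingEnd ℂ) (ξ x) * η x) ⟪ξ, η⟫_ℂ := by
  have := lp.hasSum_inner (𝕜 := ℂ) ξ η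
  simp only [RCLike.inner_apply'] at this
  exact this

theorem norm_le_of_pointwise {ξ η : L2 G} (h : ∀ x, ‖ξ x‖ ≤ ‖η x‖) : ‖ξ‖ ≤ ‖η‖ := by
  have := hasSum_le (fun x => pow_le_pow_left₀ (norm_nonneg _) (h x) 2) (hasSum_sq ξ) (hasSum_sq η)
  exact (pow_le_pow_iff_left₀ (norm_nonneg _) (norm_nonneg _) two_ne_zero).1 this

/-- Composition with a permutation, as a linear map. -/
def permL (σ : G ≃ G) : L2 G →ₗ[ℂ] L2 G where
  toFun ξ := ⟨fun x => ξ (σ x), memL2 (σ.summable_iff.2 (hasSum_sq ξ).summable)⟩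
  map_add' _ _ := rfl
  map_smul' _ _ := rfl

theorem norm_permL (σ : G ≃ G) (ξ : L2 G) : ‖permL σ ξ‖ = ‖ξ‖ := by
  have h1 := (hasSum_sq (permL σ ξ)).unique (σ.hasSum_iff.2 (hasSum_sq ξ))
  exact (pow_left_inj₀ (norm_nonneg _) (norm_nonneg _) two_ne_zero).1 h1

/-- Composition with a permutation. -/
noncomputable def perm (σ : G ≃ G) : L2 G →L[ℂ] L2 G :=
  (permL σ).mkContinuous 1 fun ξ => by rw [norm_permL, one_mul]

theorem perm_apply (σ : G ≃ G) (ξ : L2 G) (x : G) : perm σ ξ x = ξ (σ x) := rfl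

theorem norm_perm (σ : G ≃ G) (ξ : L2 G) : ‖perm σ ξ‖ = ‖ξ‖ := norm_permL σ ξ

theorem star_perm (σ : G ≃ G) : star (perm σ) = perm σ.symm := by
  rw [ContinuousLinearMap.star_eq_adjoint, eq_comm, ContinuousLinearMap.eq_adjoint_iff]
  intro ξ η
  refine (hasSum_inner' _ _).unique (σ.hasSum_iff.1 ?_)
  simpa [Function.comp_def, perm_apply] using hasSum_inner' ξ (perm σ η)

/-- Multiplication by an indicator function, as a linear map. -/
noncomputable def indL (D : Set G) : L2 G →ₗ[ℂ] L2 G where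
  toFun ξ := ⟨fun x => if x ∈ D then ξ x else 0, memL2 (Summable.of_nonneg_of_le
    (fun _ => sq_nonneg _) (fun x => by split_ifs <;> simp) (hasSum_sq ξ).summable)⟩
  map_add' ξ η := L2.ext (funext fun x => by
    show (if x ∈ D then ξ x + η x else 0) = (if x ∈ D then ξ x else 0) + (if x ∈ D then η x else 0)
    split_ifs <;> simp)
  map_smul' c ξ := L2.ext (funext fun x => by
    show (if x ∈ D then c • ξ x else 0) = c • (if x ∈ D then ξ x else 0)
    split_ifs <;> simp)

theorem norm_indL (D : Set G) (ξ : L2 G) : ‖indL D ξ‖ ≤ ‖ξ‖ :=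
  norm_le_of_pointwise fun x => by
    show ‖if x ∈ D then ξ x else 0‖ ≤ _
    split_ifs <;> simp

/-- Multiplication by an indicator function. -/
noncomputable def ind (D : Set G) : L2 G →L[ℂ] L2 G :=
  (indL D).mkContinuous 1 fun ξ => by rw [one_mul]; exact norm_indL D ξ

theorem ind_apply (D : Set G) (ξ : L2 G) (x : G) : ind D ξ x = if x ∈ D then ξ x else 0 := rfl

theorem norm_ind_le (D : Set G) (ξ : L2 G) : ‖ind D ξ‖ ≤ ‖ξ‖ := norm_indL D ξ

theorem opNorm_ind_le (D : Set G) : ‖ind D‖ ≤ 1 :=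
  ContinuousLinearMap.opNorm_le_bound _ zero_le_one fun ξ => by
    rw [one_mul]; exact norm_ind_le D ξ

theorem op_ext_apply {S T : L2 G →L[ℂ] L2 G} (h : ∀ ξ x, S ξ x = T ξ x) : S = T :=
  ContinuousLinearMap.ext fun ξ => L2.ext (funext (h ξ))

theorem ind_mul_self (D : Set G) : ind D * ind D = ind D :=
  op_ext_apply fun ξ x => by
    simp only [mul_apply_eq_comp, ind_apply]
    split_ifs <;> rfl

theorem one_sub_ind (D : Set G) : 1 - ind D = ind Dᶜ :=
  op_ext_apply fun ξ x => by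
    show ξ x - ind D ξ x = _
    simp only [ind_apply, Set.mem_compl_iff]
    split_ifs <;> simp

theorem star_ind (D : Set G) : star (ind D) = ind D := by
  rw [ContinuousLinearMap.star_eq_adjoint, eq_comm, ContinuousLinearMap.eq_adjoint_iff]
  intro ξ η
  refine (hasSum_inner' _ _).unique ?_
  convert hasSum_inner' ξ (ind D η) using 2 with x
  simp only [ind_apply]
  split_ifs <;> simp

theorem perm_mul_ind (σ : G ≃ G) {D : Set G} (h : ∀ x, σ x ∈ D ↔ x ∈ D) :
    perm σ * ind D = ind D * perm σ :=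
  op_ext_apply fun ξ x => by
    simp only [mul_apply_eq_comp, ind_apply, perm_apply, h]

/-- Pointwise complex conjugation. -/
noncomputable def conjL (ξ : L2 G) : L2 G :=
  ⟨fun x => (starRingEnd ℂ) (ξ x), memL2 (by simpa using (hasSum_sq ξ).summable)⟩

theorem conjL_apply (ξ : L2 G) (x : G) : conjL ξ x = (starRingEnd ℂ) (ξ x) := rfl

/-- The canonical basis vectors. -/
noncomputable def dl (g : G) : L2 G := lp.single 2 g (1 : ℂ)

theorem dl_apply (g x : G) : dl g x = if x = g then 1 else 0 := by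
  exact Pi.single_apply g (1 : ℂ) x

theorem inner_dl (g : G) (ξ : L2 G) : ⟪dl g, ξ⟫_ℂ = ξ g := by
  refine (lp.inner_single_left (𝕜 := ℂ) g (1 : ℂ) ξ).trans ?_
  simp only [RCLike.inner_apply, map_one, mul_one]
  rfl

theorem norm_dl (g : G) : ‖dl g‖ = 1 := by
  exact (lp.norm_single (E := fun _ : G => ℂ) (p := 2) (by norm_num) g (1 : ℂ)).trans norm_one

theorem eq_zero_of_inner_dl {ξ : L2 G} (h : ∀ g, ⟪ξ, dl g⟫_ℂ = 0) : ξ = 0 :=
  L2.ext (funext fun g => by
    have := h g
    rw [← inner_conj_symm, inner_dl, map_eq_zero] at this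
    exact this)

theorem op_ext_dl {S T : L2 G →L[ℂ] L2 G} (h : ∀ g, S (dl g) = T (dl g)) : S = T := by
  refine star_injective (ContinuousLinearMap.ext fun ξ => sub_eq_zero.1
    (eq_zero_of_inner_dl fun g => ?_))
  rw [inner_sub_left, inner_star_apply, inner_star_apply, h, sub_self]

theorem hasSum_dl (ξ : L2 G) : HasSum (fun g => ξ g • dl g) ξ := by
  have h1 := lp.hasSum_single (E := fun _ : G => ℂ) (p := 2) (by norm_num) ξ
  have h2 : (fun g => ξ g • dl g) = fun g => (lp.single 2 g (ξ g) : lp (fun _ : G => ℂ) 2) := by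
    funext g
    refine L2.ext (funext fun x => ?_)
    rw [L2.smul_apply, dl_apply]
    refine Eq.trans ?_ (Pi.single_apply g (ξ g) x).symm
    split_ifs <;> simp
  rw [h2]
  exact h1

/-- A square summable function which is constant on an infinite set vanishes there. -/
theorem apply_eq_zero_of_infinite (ξ : L2 G) {S : Set G} (hS : S.Infinite) {c : ℂ}
    (h : ∀ x ∈ S, ξ x = c) : c = 0 := by
  by_contra hc
  have h1 := (hasSum_sq ξ).summable.tendsto_cofinite_zero.eventually
    (gt_mem_nhds (show (0 : ℝ) < ‖c‖ ^ 2 by positivity))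
  refine hS ((eventually_cofinite.1 h1).subset fun x hx => ?_)
  simp [h x hx]

end Basic

variable {G : Type} [Group G]

/-- The left regular representation. -/
noncomputable def lam (g : G) : L2 G →L[ℂ] L2 G := perm (Equiv.mulLeft g⁻¹)

/-- The right regular representation. -/
noncomputable def rho (g : G) : L2 G →L[ℂ] L2 G := perm (Equiv.mulRight g)

/-- The conjugation representation. -/
noncomputable def cj (g : G) : L2 G →L[ℂ] L2 G := lam g * rho g

theorem lam_apply (g : G) (ξ : L2 G) (x : G) : lam g ξ x = ξ (g⁻¹ * x) := rfl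

theorem rho_apply (g : G) (ξ : L2 G) (x : G) : rho g ξ x = ξ (x * g) := rfl

theorem cj_apply (g : G) (ξ : L2 G) (x : G) : cj g ξ x = ξ (g⁻¹ * x * g) := rfl

theorem lam_mul (g h : G) : lam (g * h) = lam g * lam h :=
  op_ext_apply fun ξ x => by simp only [mul_apply_eq_comp, lam_apply, mul_inv_rev, mul_assoc]

theorem rho_mul (g h : G) : rho (g * h) = rho g * rho h :=
  op_ext_apply fun ξ x => by simp only [mul_apply_eq_comp, rho_apply, mul_assoc]

theorem cj_mul (g h : G) : cj (g * h) = cj g * cj h :=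
  op_ext_apply fun ξ x => by simp only [mul_apply_eq_comp, cj_apply, mul_inv_rev, mul_assoc]

theorem lam_one : lam (1 : G) = 1 := op_ext_apply fun ξ x => by simp [lam_apply]

theorem rho_one : rho (1 : G) = 1 := op_ext_apply fun ξ x => by simp [rho_apply]

theorem cj_one : cj (1 : G) = 1 := op_ext_apply fun ξ x => by simp [cj_apply]

theorem star_lam (g : G) : star (lam g) = lam g⁻¹ := by
  rw [lam, star_perm]; exact op_ext_apply fun ξ x => by simp [perm_apply, lam_apply]

theorem star_rho (g : G) : star (rho g) = rho g⁻¹ := by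
  rw [rho, star_perm]; exact op_ext_apply fun ξ x => by simp [perm_apply, rho_apply]

theorem norm_lam (g : G) (ξ : L2 G) : ‖lam g ξ‖ = ‖ξ‖ := norm_perm _ _

theorem norm_rho (g : G) (ξ : L2 G) : ‖rho g ξ‖ = ‖ξ‖ := norm_perm _ _

theorem norm_cj (g : G) (ξ : L2 G) : ‖cj g ξ‖ = ‖ξ‖ := by
  rw [cj, mul_apply_eq_comp, norm_lam, norm_rho]

theorem opNorm_lam_le (g : G) : ‖lam g‖ ≤ 1 :=
  ContinuousLinearMap.opNorm_le_bound _ zero_le_one fun ξ => by rw [one_mul, norm_lam]

theorem opNorm_cj_le (g : G) : ‖cj g‖ ≤ 1 :=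
  ContinuousLinearMap.opNorm_le_bound _ zero_le_one fun ξ => by rw [one_mul, norm_cj]

theorem lam_mul_rho (g h : G) : lam g * rho h = rho h * lam g :=
  op_ext_apply fun ξ x => by simp only [mul_apply_eq_comp, lam_apply, rho_apply, mul_assoc]

theorem lam_mul_inv (g : G) : lam g * lam g⁻¹ = 1 := by rw [← lam_mul, mul_inv_cancel, lam_one]

theorem lam_inv_mul (g : G) : lam g⁻¹ * lam g = 1 := by rw [← lam_mul, inv_mul_cancel, lam_one]

theorem cj_mul_inv (g : G) : cj g * cj g⁻¹ = 1 := by rw [← cj_mul, mul_inv_cancel, cj_one]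

theorem cj_inv_mul (g : G) : cj g⁻¹ * cj g = 1 := by rw [← cj_mul, inv_mul_cancel, cj_one]

theorem lam_dl (g h : G) : lam g (dl h) = dl (g * h) :=
  L2.ext (funext fun x => by simp only [lam_apply, dl_apply, inv_mul_eq_iff_eq_mul])

theorem rho_dl (g h : G) : rho g (dl h) = dl (h * g⁻¹) :=
  L2.ext (funext fun x => by simp only [rho_apply, dl_apply, eq_mul_inv_iff_mul_eq])

theorem cj_dl_one (g : G) : cj g (dl 1) = dl 1 := by
  rw [cj, mul_apply_eq_comp, rho_dl, lam_dl, one_mul, mul_inv_cancel]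

/-- The group von Neumann algebra. -/
noncomputable def LG (G : Type) [Group G] : VonNeumannAlgebra (L2 G) :=
  vnComm (Set.range (rho (G := G)))

theorem rho_range_star : ∀ r ∈ Set.range (rho (G := G)), star r ∈ Set.range (rho (G := G)) := by
  rintro _ ⟨g, rfl⟩
  exact ⟨g⁻¹, (star_rho g).symm⟩

theorem mem_LG {x : L2 G →L[ℂ] L2 G} : x ∈ LG G ↔ ∀ g, rho g * x = x * rho g := by
  rw [LG, mem_vnComm rho_range_star]
  simp

theorem lam_mem (g : G) : lam g ∈ LG G := mem_LG.2 fun h => (lam_mul_rho g h).symm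

theorem isTV_LG : IsTV (LG G) (dl (1 : G)) := by
  refine isTV_vnComm rho_range_star (norm_dl 1) (fun ξ hξ => ?_)
    (fun ξ => perm (Equiv.inv G) (conjL ξ)) (fun ξ η => ?_) ?_
  · refine eq_zero_of_inner_dl fun g => ?_
    have := hξ _ ⟨g⁻¹, rfl⟩
    rwa [rho_dl, one_mul, inv_inv] at this
  · refine (hasSum_inner' _ _).unique ((Equiv.inv G).hasSum_iff.1 ?_)
    convert hasSum_inner' (perm (Equiv.inv G) (conjL η)) ξ using 2 with x
    simp [perm_apply, conjL_apply, mul_comm]
  · rintro _ ⟨g, rfl⟩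
    rw [star_rho, rho_dl, rho_dl]
    refine L2.ext (funext fun x => ?_)
    simp only [perm_apply, conjL_apply, dl_apply, Equiv.inv_apply, one_mul,
      inv_inv, inv_inj]
    split_ifs <;> simp

theorem cj_hat {x : L2 G →L[ℂ] L2 G} (hx : x ∈ LG G) (g : G) :
    cj g (x (dl 1)) = (lam g * x * lam g⁻¹) (dl 1) := by
  rw [cj, mul_apply_eq_comp, ← mul_apply_eq_comp (rho g), mem_LG.1 hx g]
  simp only [mul_apply_eq_comp, rho_dl, lam_dl, one_mul, mul_one]

theorem cj_mul_of_mem {x : L2 G →L[ℂ] L2 G} (hx : x ∈ LG G) (g : G) :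
    cj g * x - x * cj g = (lam g * x - x * lam g) * rho g := by
  rw [cj, mul_assoc, mem_LG.1 hx g, sub_mul, mul_assoc, mul_assoc]

theorem infinite_LG [Infinite G] : ¬ FiniteDimensional ℂ (LG G).toStarSubalgebra := by
  intro hfd
  let f : (LG G).toStarSubalgebra →ₗ[ℂ] L2 G :=
    { toFun := fun x => x.1 (dl 1)
      map_add' := fun _ _ => rfl
      map_smul' := fun _ _ => rfl }
  have h1 : Orthonormal ℂ (dl (G := G)) := orthonormal_iff_ite.2 fun g h => by
    rw [inner_dl, dl_apply]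
  have h2 : LinearIndependent ℂ (fun g : G => (⟨lam g, lam_mem g⟩ : (LG G).toStarSubalgebra)) := by
    refine LinearIndependent.of_comp f ?_
    have h3 : (f ∘ fun g : G => (⟨lam g, lam_mem g⟩ : (LG G).toStarSubalgebra)) = dl := by
      funext g
      show lam g (dl 1) = _
      rw [lam_dl, mul_one]
    rw [h3]
    exact h1.linearIndependent
  exact Module.Finite.not_linearIndependent_of_infinite _ h2

/-- The spectral gap estimate coming from a paradoxical decomposition. -/
theorem gap_half {a : G} {A W W' : Set G} (h : ∀ x, x ∉ A → x ∈ W ∨ a⁻¹ * x * a ∈ W')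
    {η : L2 G} (hη : ∀ x ∈ A, η x = 0) {δ : ℝ} (hδ : ‖cj a η - η‖ ≤ δ) :
    ‖η‖ ^ 2 ≤ ‖ind W η‖ ^ 2 + (‖ind W' η‖ + δ) ^ 2 := by
  let D : Set G := {x | a⁻¹ * x * a ∈ W'}
  have h1 : ‖η‖ ^ 2 ≤ ‖ind W η‖ ^ 2 + ‖ind D η‖ ^ 2 := by
    refine hasSum_le (fun x => ?_) (hasSum_sq η) ((hasSum_sq _).add (hasSum_sq _))
    simp only [ind_apply]
    by_cases hx : x ∈ A
    · simp [hη x hx]
    · rcases h x hx with h2 | h2
      · rw [if_pos h2]; exact le_add_of_nonneg_right (sq_nonneg _)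
      · rw [if_pos (show x ∈ D from h2)]; exact le_add_of_nonneg_left (sq_nonneg _)
  have h2 : ind D (cj a η) = cj a (ind W' η) := L2.ext (funext fun x => rfl)
  have h3 : ‖ind D η‖ ≤ ‖ind W' η‖ + δ := by
    have h4 : ind D η = cj a (ind W' η) - ind D (cj a η - η) := by rw [map_sub, h2]; abel
    rw [h4]
    refine (norm_sub_le _ _).trans (add_le_add (norm_cj _ _).le ((norm_ind_le _ _).trans hδ))
  have h4 := pow_le_pow_left₀ (norm_nonneg _) h3 2
  linarith

end Pool.Agent.MP_755d6b_an.H98
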