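import Pool.Agent.MP_755d6b_an.H98.Ultra

/-!
# Properties of the tracial ultrapower
-/

namespace Pool.Agent.MP_755d6b_an.H98

open Filter Topology
open scoped ComplexOrder InnerProductSpace

variable {H : Type} [NormedAddCommGroup H] [InnerProductSpace ℂ H] [CompleteSpace H]
  {N : VonNeumannAlgebra H} {Ω : H}
  {K : Type} [NormedAddCommGroup K] [InnerProductSpace ℂ K] [CompleteSpace K]
  {U : Ultrafilter ℕ} {M : VonNeumannAlgebra K} {Ω' : K} {π : BddS ℕ N →⋆ₐ[ℂ] (K →L[ℂ] K)}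

theorem IsUltra.trace (hu : IsUltra N Ω U M Ω' π) (a : BddS ℕ N) :
    Tendsto (fun i => ⟪Ω, a.1 i Ω⟫_ℂ) U (𝓝 ⟪Ω', π a Ω'⟫_ℂ) := by
  have := hu.inner 1 a
  rw [map_one] at this
  exact this

theorem IsUltra.exists_near (hu : IsUltra N Ω U M Ω' π) (ξ : K) {ε : ℝ} (hε : 0 < ε) :
    ∃ a, ‖ξ - π a Ω'‖ ≤ ε := by
  obtain ⟨a, ha⟩ := hu.dense.exists_dist_lt ξ hε
  exact ⟨a, by rw [← dist_eq_norm]; exact ha.le⟩

theorem IsUltra.kaplansky_sa_one (hu : IsUltra N Ω U M Ω' π) {T : K →L[ℂ] K} (hT : T ∈ M)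
    (hsa : IsSelfAdjoint T) (h1 : ‖T‖ ≤ 1) {ε : ℝ} (hε : 0 < ε) :
    ∃ b : BddS ℕ N, (∀ i, ‖b.1 i‖ ≤ 1) ∧ ‖(T - π b) Ω'‖ ≤ ε := by
  obtain ⟨S, hS1, hS2, hS3⟩ := exists_cayley hsa h1
  have hSM : S ∈ M := mem_vN_of_commute hT hS3
  obtain ⟨c, hc1, hc2, hc3, -, hc5, hc6⟩ := exists_inv_one_add_sq hS1
  have hcM : c ∈ M := mem_vN_of_commute hSM hc6
  have hTc : T = c * S + c * S := by
    have h2 : T = T * (1 + S * S) * c := by rw [mul_assoc, hc2, mul_one]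
    rw [h2, hS2, add_mul, (hc6 S (Commute.refl S)).eq]
  obtain ⟨b0, hb0⟩ := hu.exists_near (S Ω') (ε := ε / 4) (by positivity)
  let b : BddS ℕ N := (1 / 2 : ℂ) • (b0 + star b0)
  have hbsa : ∀ i, IsSelfAdjoint (b.1 i) := fun i => by
    show star ((1 / 2 : ℂ) • (b0.1 i + star (b0.1 i))) = (1 / 2 : ℂ) • (b0.1 i + star (b0.1 i))
    rw [star_smul, star_add, star_star, add_comm]
    simp
  have hSb : ‖(S - π b) Ω'‖ ≤ ε / 4 := by
    have h2 : S - π b = (1 / 2 : ℂ) • ((S - π b0) + star (S - π b0)) := by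
      simp only [b, map_smul, map_add, map_star, star_sub, hS1.star_eq]
      module
    have h3 := hu.tv.norm_star (sub_mem hSM (hu.mem b0))
    have h4 : ‖(S - π b0) Ω'‖ ≤ ε / 4 := hb0
    have h5 := norm_add_le ((S - π b0) Ω') ((star (S - π b0)) Ω')
    have h6 : ‖(1 / 2 : ℂ)‖ = 1 / 2 := by simp
    rw [h2, smul_apply, norm_smul, add_apply, h6]
    linarith
  choose d hd1 hd2 hd3 hd4 hd5 hd6 using fun i => exists_inv_one_add_sq (hbsa i)
  let dB : BddS ℕ N := ⟨d, fun i => mem_vN_of_commute (b.2.1 i) (hd6 i), 1, hd3⟩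
  have hD : (1 + π b * π b) * π dB = 1 := by
    have h2 : (1 + b * b) * dB = 1 := Subtype.ext (funext hd2)
    have h3 := congrArg π h2
    rwa [map_mul, map_add, map_mul, map_one] at h3
  have hD1 : ‖π dB‖ ≤ 1 := hu.norm_le _ _ hd3
  have hD2 : ‖π b * π dB‖ ≤ 1 / 2 := by
    rw [← map_mul]
    exact hu.norm_le _ _ hd4
  refine ⟨b * dB + b * dB, fun i => ?_, ?_⟩
  · have h2 := norm_add_le (b.1 i * d i) (b.1 i * d i)
    have h3 := hd4 i
    show ‖b.1 i * d i + b.1 i * d i‖ ≤ 1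
    linarith
  · have h2 := cayley_sub hc1 hD
    have hSy : S - π b ∈ M := sub_mem hSM (hu.mem b)
    have hyS : π b - S ∈ M := sub_mem (hu.mem b) hSM
    have h3 : ‖(c * (S - π b) * π dB) Ω'‖ ≤ ε / 4 := by
      have h4 := hu.tv.norm_mul_right hSy (hu.mem dB)
      have h5 := c.le_opNorm ((S - π b) (π dB Ω'))
      have h6 := mul_le_of_le_one_left (norm_nonneg ((S - π b) (π dB Ω'))) hc3
      have h7 := mul_le_of_le_one_left (norm_nonneg ((S - π b) Ω')) hD1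
      show ‖c ((S - π b) (π dB Ω'))‖ ≤ _
      linarith
    have h4 : ‖(c * S * (π b - S) * (π b * π dB)) Ω'‖ ≤ ε / 4 := by
      have h4 := hu.tv.norm_mul_right hyS (mul_mem (hu.mem b) (hu.mem dB))
      have h5 := (c * S).le_opNorm ((π b - S) ((π b * π dB) Ω'))
      have h6 := mul_le_of_le_one_left (norm_nonneg ((π b - S) ((π b * π dB) Ω')))
        (hc5.trans (by norm_num))
      have h7 := mul_le_of_le_one_left (norm_nonneg ((π b - S) Ω')) (hD2.trans (by norm_num))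
      have h8 : ‖(π b - S) Ω'‖ = ‖(S - π b) Ω'‖ := by
        rw [← neg_sub, neg_apply, norm_neg]
      show ‖(c * S) ((π b - S) ((π b * π dB) Ω'))‖ ≤ _
      linarith
    have h5 : ‖(c * S - π b * π dB) Ω'‖ ≤ ε / 2 := by
      rw [h2, add_apply]
      exact (norm_add_le _ _).trans (by linarith)
    have h6 : T - π (b * dB + b * dB) = (c * S - π b * π dB) + (c * S - π b * π dB) := by
      rw [map_add, map_mul, hTc]; abel
    rw [h6, add_apply]
    exact (norm_add_le _ _).trans (by linarith)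

theorem IsUltra.kaplansky_sa (hu : IsUltra N Ω U M Ω' π) {T : K →L[ℂ] K} (hT : T ∈ M)
    (hsa : IsSelfAdjoint T) {C : ℝ} (hC : 0 < C) (h1 : ‖T‖ ≤ C) {ε : ℝ} (hε : 0 < ε) :
    ∃ b : BddS ℕ N, (∀ i, ‖b.1 i‖ ≤ C) ∧ ‖(T - π b) Ω'‖ ≤ ε := by
  have hn : ‖(C : ℂ)‖ = C := by simp [hC.le]
  have hC0 : (C : ℂ) ≠ 0 := by exact_mod_cast hC.ne'
  obtain ⟨b, hb1, hb2⟩ := hu.kaplansky_sa_one (T := (C : ℂ)⁻¹ • T) (smul_mem_vN _ hT)
    (by
      show star _ = _
      rw [star_smul, hsa.star_eq]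
      simp)
    (by
      rw [norm_smul, norm_inv, hn, inv_mul_le_iff₀ hC, mul_one]
      exact h1) (div_pos hε hC)
  refine ⟨(C : ℂ) • b, fun i => ?_, ?_⟩
  · show ‖(C : ℂ) • b.1 i‖ ≤ C
    rw [norm_smul, hn]
    exact mul_le_of_le_one_right hC.le (hb1 i)
  · have h2 : T - π ((C : ℂ) • b) = (C : ℂ) • ((C : ℂ)⁻¹ • T - π b) := by
      rw [map_smul, smul_sub, smul_inv_smul₀ hC0]
    rw [h2, smul_apply, norm_smul, hn]
    rwa [le_div_iff₀ hC, mul_comm] at hb2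

theorem IsUltra.kaplansky (hu : IsUltra N Ω U M Ω' π) {T : K →L[ℂ] K} (hT : T ∈ M)
    {C : ℝ} (hC : 0 < C) (h1 : ‖T‖ ≤ C) {ε : ℝ} (hε : 0 < ε) :
    ∃ b : BddS ℕ N, (∀ i, ‖b.1 i‖ ≤ 4 * C) ∧ ‖(T - π b) Ω'‖ ≤ ε := by
  have h2 : ‖star T‖ ≤ C := by rwa [norm_star]
  obtain ⟨a, ha1, ha2⟩ := hu.kaplansky_sa (add_mem hT (star_mem hT))
    (IsSelfAdjoint.add_star_self T) (C := 2 * C) (by positivity)
    ((norm_add_le _ _).trans (by linarith)) hε
  obtain ⟨b, hb1, hb2⟩ := hu.kaplansky_sa (T := Complex.I • (T - star T))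
    (smul_mem_vN _ (sub_mem hT (star_mem hT)))
    (by
      show star _ = _
      rw [star_smul, star_sub, star_star, Complex.star_def, Complex.conj_I, neg_smul,
        ← smul_neg, neg_sub])
    (C := 2 * C) (by positivity)
    (by
      rw [norm_smul, Complex.norm_I, one_mul]
      exact (norm_sub_le _ _).trans (by linarith)) hε
  have h6 : ‖(1 / 2 : ℂ)‖ = 1 / 2 := by simp
  refine ⟨(1 / 2 : ℂ) • (a - Complex.I • b), fun i => ?_, ?_⟩
  · show ‖(1 / 2 : ℂ) • (a.1 i - Complex.I • b.1 i)‖ ≤ _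
    have h3 := norm_sub_le (a.1 i) (Complex.I • b.1 i)
    rw [norm_smul, Complex.norm_I, one_mul] at h3
    rw [norm_smul, h6]
    linarith [ha1 i, hb1 i]
  · have h3 : T - π ((1 / 2 : ℂ) • (a - Complex.I • b)) = (1 / 2 : ℂ) •
        ((T + star T - π a) - Complex.I • (Complex.I • (T - star T) - π b)) := by
      rw [map_smul, map_sub, map_smul, smul_sub Complex.I, smul_smul, Complex.I_mul_I]
      module
    have h4 := norm_sub_le ((T + star T - π a) Ω')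
      (Complex.I • (Complex.I • (T - star T) - π b) Ω')
    rw [norm_smul, Complex.norm_I, one_mul] at h4
    rw [h3, smul_apply, norm_smul, h6, sub_apply, smul_apply]
    linarith

theorem IsUltra.factor (hu : IsUltra N Ω U M Ω' π) (hg : Gap N Ω) :
    ∀ z ∈ M, (∀ x ∈ M, z * x = x * z) → ∃ c : ℂ, z = c • (1 : K →L[ℂ] K) := by
  intro z hz hc
  refine hu.tv.scalar_of_le hz ?_
  have key : ∀ ξ : K, ‖ξ‖ ^ 2 - ‖⟪Ω', ξ⟫_ℂ‖ ^ 2 ≤ 16 * ‖z Ω' - ξ‖ ^ 2 := fun ξ => by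
    refine hu.dense.induction_on (p := fun ξ => ‖ξ‖ ^ 2 - ‖⟪Ω', ξ⟫_ℂ‖ ^ 2 ≤ 16 * ‖z Ω' - ξ‖ ^ 2) ξ
      (isClosed_le (by fun_prop) (by fun_prop)) fun b => ?_
    choose u huN hu1 hu2 using fun i => hg (b.1 i) (b.2.1 i)
    let uB : BddS ℕ N := ⟨u, huN, 1, hu1⟩
    have h1 : ‖π b Ω'‖ ^ 2 - ‖⟪Ω', π b Ω'⟫_ℂ‖ ^ 2 ≤ 4 * ‖π (uB * b - b * uB) Ω'‖ ^ 2 :=
      le_of_tendsto_of_tendsto' (((hu.norm b).pow 2).sub ((hu.trace b).norm.pow 2))
        (((hu.norm (uB * b - b * uB)).pow 2).const_mul 4) hu2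
    have h2 : π (uB * b - b * uB) = π uB * (π b - z) - (π b - z) * π uB := by
      rw [map_sub, map_mul, map_mul, mul_sub, sub_mul, hc _ (hu.mem uB)]
      abel
    have h3 := hu.tv.norm_comm_le (hu.mem uB) (hu.norm_le _ _ hu1) (sub_mem (hu.mem b) hz)
    rw [← h2] at h3
    have h4 : ‖(π b - z) Ω'‖ = ‖z Ω' - π b Ω'‖ := norm_sub_rev _ _
    rw [h4] at h3
    have h5 := pow_le_pow_left₀ (norm_nonneg _) h3 2
    nlinarith
  simpa using key (z Ω')

theorem IsUltra.infinite (hu : IsUltra N Ω U M Ω' π) (h : IsTV N Ω)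
    (hN : ¬ FiniteDimensional ℂ N.toStarSubalgebra) : ¬ FiniteDimensional ℂ M.toStarSubalgebra := by
  intro hM
  let f : N.toStarSubalgebra →ₗ[ℂ] M.toStarSubalgebra :=
    { toFun := fun x => ⟨π (constB ℕ x.2), hu.mem _⟩
      map_add' := fun x y => Subtype.ext (by
        show π (constB ℕ x.2 + constB ℕ y.2) = _
        rw [map_add]; rfl)
      map_smul' := fun c x => Subtype.ext (by
        show π (c • constB ℕ x.2) = _
        rw [map_smul]; rfl) }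
  refine hN (FiniteDimensional.of_injective f ((injective_iff_map_eq_zero f).2 fun x hx => ?_))
  have h1 : π (constB ℕ x.2) = 0 := congrArg Subtype.val hx
  have h2 := hu.norm (constB ℕ x.2)
  rw [h1] at h2
  have h3 : ‖x.1 Ω‖ = ‖(0 : K →L[ℂ] K) Ω'‖ := tendsto_const_nhds_iff.1 h2
  exact Subtype.ext (h.sep _ x.2 (by simpa using h3))

theorem IsUltra.soft (hu : IsUltra N Ω U M Ω' π) (hU : (U : Filter ℕ) ≤ atTop)
    (hΓ : Gam N Ω) : Soft M := by
  intro y hy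
  obtain ⟨u, hu1, hu2⟩ := hΓ
  have hpos : ∀ m : ℕ, (0 : ℝ) < 1 / ((m : ℝ) + 1) := fun m => Nat.one_div_pos_of_nat
  choose b hb using fun (s : Fin 3) (m : ℕ) => hu.exists_near (y s Ω') (hpos m)
  have hk : ∀ n : ℕ, ∃ k, ∀ s : Fin 3, ∀ m ∈ Finset.range (n + 1),
      ‖(u k * (b s m).1 n - (b s m).1 n * u k) Ω‖ ≤ 1 / ((n : ℝ) + 1) := fun n => by
    refine Eventually.exists (f := atTop) (eventually_all.2 fun s =>
      (Finset.eventually_all _).2 fun m _ => ?_)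
    exact (hu2 _ ((b s m).2.1 n)).eventually (ge_mem_nhds (hpos n))
  choose k hk using hk
  have hn : ∀ n, ‖u (k n)‖ ≤ 1 := fun n => by
    have h1 : ‖star (u (k n)) * u (k n)‖ = ‖u (k n)‖ * ‖u (k n)‖ := CStarRing.norm_star_mul_self
    rw [(hu1 _).2.1] at h1
    have h2 : ‖(1 : H →L[ℂ] H)‖ ≤ 1 := ContinuousLinearMap.norm_id_le
    nlinarith [norm_nonneg (u (k n))]
  let w : BddS ℕ N := ⟨fun n => u (k n), fun n => (hu1 _).1, 1, hn⟩
  have hw1 : star (π w) * π w = 1 := by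
    rw [← map_star, ← map_mul, ← map_one π]
    congr 1
    exact Subtype.ext (funext fun n => (hu1 _).2.1)
  have hw2 : π w * star (π w) = 1 := by
    rw [← map_star, ← map_mul, ← map_one π]
    congr 1
    exact Subtype.ext (funext fun n => (hu1 _).2.2.1)
  have hw3 : ‖⟪Ω', π w Ω'⟫_ℂ‖ ≤ 1 / 2 :=
    le_of_tendsto' (hu.trace w).norm fun n => (hu1 _).2.2.2
  have hw4 : ∀ s m, π (w * b s m - b s m * w) Ω' = 0 := fun s m => by
    refine norm_eq_zero.1 (tendsto_nhds_unique (hu.norm _) ?_)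
    refine squeeze_zero' (Eventually.of_forall fun _ => norm_nonneg _) ?_
      (tendsto_one_div_add_atTop_nhds_zero_nat.mono_left hU)
    filter_upwards [hU (eventually_ge_atTop m)] with n hn
    exact hk n s m (Finset.mem_range.2 (Nat.lt_succ_of_le hn))
  have hw5 : ∀ s, Commute (π w) (y s) := fun s => by
    refine sub_eq_zero.1 (hu.tv.sep _ (sub_mem (mul_mem (hu.mem w) (hy s))
      (mul_mem (hy s) (hu.mem w))) (norm_eq_zero.1 (le_antisymm ?_ (norm_nonneg _))))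
    have h1 := tendsto_one_div_add_atTop_nhds_zero_nat (𝕜 := ℝ).const_mul 2
    rw [mul_zero] at h1
    refine ge_of_tendsto' h1 fun m => ?_
    have h2 : π w * y s - y s * π w = (π w * (y s - π (b s m)) - (y s - π (b s m)) * π w) +
        π (w * b s m - b s m * w) := by
      rw [map_sub, map_mul, map_mul, mul_sub, sub_mul]; abel
    have h3 := hu.tv.norm_comm_le (hu.mem w) (hu.norm_le _ _ hn) (sub_mem (hy s) (hu.mem (b s m)))
    have h4 : ‖(y s - π (b s m)) Ω'‖ ≤ _ := hb s m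
    rw [h2, add_apply, hw4, add_zero]
    linarith
  obtain ⟨p, hp, h1, h2, h3, h4, h5⟩ :=
    hu.tv.exists_proj_of_unitary (hu.mem w) hw1 hw2 (by linarith)
  exact ⟨p, hp, h1, h2, h3, h4, fun s => (h5 _ (hw5 s)).eq.symm⟩

end Pool.Agent.MP_755d6b_an.H98
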