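import Pool.Agent.MP_755d6b_an.H98.L2

/-!
# Spectral gap and rigidity of projections
-/

namespace Pool.Agent.MP_755d6b_an.H98

open Filter Topology
open scoped ComplexOrder InnerProductSpace Classical

/-- The combinatorial data used about the group. -/
structure GData (G : Type) [Group G] where
  A : Subgroup G
  s : Fin 3 → G
  normal : ∀ x g, g⁻¹ * x * g ∈ A ↔ x ∈ A
  comm : ∀ x ∈ A, ∀ y ∈ A, x * y = y * x
  fix0 : ∀ x ∈ A, (s 0)⁻¹ * x * s 0 = x
  fix1 : ∀ x ∈ A, (s 1)⁻¹ * x * s 1 = x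
  lab : G → Option (Fin 3 × Bool)
  para : ∀ i x, x ∉ A → lab x = some (i, true) ∨ lab ((s i)⁻¹ * x * s i) = some (i, false)
  orbit : ∀ x ∈ A, x ≠ 1 → (Set.range fun n : ℕ => (s 2 ^ n)⁻¹ * x * s 2 ^ n).Infinite
  e : ℕ → G
  e_mem : ∀ j, e j ∈ A
  e_sq : ∀ j, e j * e j = 1
  e_shift : ∀ j, s 2 * e j = e (j + 1) * s 2
  c : ℕ → G → Prop
  c_one : ∀ j, ¬ c j 1
  c_self : ∀ j, c j (e j)
  c_mul : ∀ i j g, i ≠ j → c j g → c j (e i * g)
  gen : Subgroup.closure ((A : Set G) ∪ Set.range s) = ⊤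

variable {G : Type} [Group G] (D : GData G)

theorem GData.gap {η : L2 G} (hη : ∀ x ∈ D.A, η x = 0) {δ : ℝ} (h0 : ‖cj (D.s 0) η - η‖ ≤ δ)
    (h1 : ‖cj (D.s 1) η - η‖ ≤ δ) : ‖η‖ ≤ 5 * δ := by
  let W : Fin 3 × Bool → Set G := fun l => {x | D.lab x = some l}
  have h2 := gap_half (A := D.A) (W := W (0, true)) (W' := W (0, false)) (D.para 0) hη h0
  have h3 := gap_half (A := D.A) (W := W (1, true)) (W' := W (1, false)) (D.para 1) hη h1
  have h4 : ‖ind (W (0, true)) η‖ ^ 2 + ‖ind (W (0, false)) η‖ ^ 2 + ‖ind (W (1, true)) η‖ ^ 2 +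
      ‖ind (W (1, false)) η‖ ^ 2 ≤ ‖η‖ ^ 2 := by
    refine hasSum_le (fun x => ?_) ((((hasSum_sq _).add (hasSum_sq _)).add (hasSum_sq _)).add
      (hasSum_sq _)) (hasSum_sq η)
    simp only [ind_apply, W, Set.mem_ofPred_eq]
    split_ifs <;> simp_all
  have h5 := norm_ind_le (W (0, false)) η
  have h6 := norm_ind_le (W (1, false)) η
  have hδ : 0 ≤ δ := (norm_nonneg _).trans h0
  have h7 : ‖η‖ ^ 2 ≤ 4 * δ * ‖η‖ + 2 * δ ^ 2 := by
    nlinarith [mul_le_mul_of_nonneg_left h5 hδ, mul_le_mul_of_nonneg_left h6 hδ]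
  by_contra h8
  push Not at h8
  nlinarith [mul_lt_mul_of_pos_right h8 (show 0 < ‖η‖ by linarith), mul_nonneg hδ hδ,
    mul_le_mul_of_nonneg_left h8.le hδ]

theorem GData.cj_mul_ind (g : G) : cj g * ind (D.A : Set G) = ind (D.A : Set G) * cj g :=
  op_ext_apply fun ξ x => by
    simp only [mul_apply_eq_comp, ind_apply, cj_apply, SetLike.mem_coe, D.normal]

theorem GData.cj_mul_indc (g : G) : cj g * ind (D.A : Set G)ᶜ = ind (D.A : Set G)ᶜ * cj g :=
  op_ext_apply fun ξ x => by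
    simp only [mul_apply_eq_comp, ind_apply, cj_apply, Set.mem_compl_iff, SetLike.mem_coe, D.normal]

theorem GData.norm_indc_le {ξ : L2 G} {δ : ℝ} (h0 : ‖cj (D.s 0) ξ - ξ‖ ≤ δ)
    (h1 : ‖cj (D.s 1) ξ - ξ‖ ≤ δ) : ‖ind (D.A : Set G)ᶜ ξ‖ ≤ 5 * δ := by
  have h2 : ∀ g, ‖cj g (ind (D.A : Set G)ᶜ ξ) - ind (D.A : Set G)ᶜ ξ‖ ≤ ‖cj g ξ - ξ‖ := fun g => by
    rw [← mul_apply_eq_comp, D.cj_mul_indc, mul_apply_eq_comp, ← map_sub]
    exact norm_ind_le _ _
  exact D.gap (fun x hx => by simp [ind_apply, hx]) ((h2 _).trans h0) ((h2 _).trans h1)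

theorem GData.inv_t {η : L2 G} (h : cj (D.s 2) η = η) {x : G} (hx : x ∈ D.A) (h1 : x ≠ 1) :
    η x = 0 := by
  have h2 : ∀ n : ℕ, cj (D.s 2 ^ n) η = η := fun n => by
    induction n with
    | zero => rw [pow_zero, cj_one, one_apply_eq_self]
    | succ n ih => rw [pow_succ, cj_mul, mul_apply_eq_comp, h, ih]
  refine apply_eq_zero_of_infinite η (D.orbit x hx h1) ?_
  rintro _ ⟨n, rfl⟩
  rw [← cj_apply, h2]

theorem eq_smul_dl {η : L2 G} (h : ∀ x, x ≠ 1 → η x = 0) : η = η 1 • dl 1 :=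
  L2.ext (funext fun x => by
    show η x = η 1 • dl 1 x
    rw [dl_apply]
    split_ifs with h1
    · simp [h1]
    · simp [h x h1])

theorem norm_cj_hat_sub {x : L2 G →L[ℂ] L2 G} (hx : x ∈ LG G) (g : G) :
    ‖cj g (x (dl 1)) - x (dl 1)‖ = ‖(lam g * x - x * lam g) (dl 1)‖ := by
  have h1 : cj g (x (dl 1)) - x (dl 1) = (cj g * x - x * cj g) (dl 1) := by
    rw [sub_apply, mul_apply_eq_comp, mul_apply_eq_comp, cj_dl_one]
  rw [h1, cj_mul_of_mem hx,
    ← mem_LG.1 (sub_mem (mul_mem (lam_mem g) hx) (mul_mem hx (lam_mem g))) g, mul_apply_eq_comp,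
    norm_rho]

include D in
theorem GData.gap_LG : Gap (LG G) (dl (1 : G)) := by
  intro x hx
  by_contra hcon
  push Not at hcon
  set d2 := ‖x (dl 1)‖ ^ 2 - ‖⟪dl 1, x (dl 1)⟫_ℂ‖ ^ 2 with hd2
  have hpos : 0 < d2 := lt_of_le_of_lt (by positivity) (hcon _ (lam_mem 1) (opNorm_lam_le 1))
  have hsq := Real.sq_sqrt hpos.le
  obtain ⟨η, hη1, hη2⟩ := exists_invariant_near (cj (G := G))
    (fun g h ξ => by rw [cj_mul, mul_apply_eq_comp]) norm_cj
    (fun ξ => by rw [cj_one, one_apply_eq_self]) (x (dl 1)) (√d2 / 2) (fun g => by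
      rw [norm_cj_hat_sub hx]
      have h1 := hcon _ (lam_mem g) (opNorm_lam_le g)
      refine (pow_le_pow_iff_left₀ (norm_nonneg _) (by positivity) two_ne_zero).1 ?_
      rw [div_pow, hsq]
      linarith)
  have h1 : ind (D.A : Set G)ᶜ η = 0 := by
    have := D.norm_indc_le (ξ := η) (δ := 0) (by simp [hη1]) (by simp [hη1])
    exact norm_eq_zero.1 (le_antisymm (by linarith) (norm_nonneg _))
  have h2 : η = η 1 • dl 1 := eq_smul_dl fun y hy => by
    by_cases hyA : y ∈ D.A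
    · exact D.inv_t (hη1 _) hyA hy
    · have h3 : ind (D.A : Set G)ᶜ η y = 0 := by rw [h1]; rfl
      rwa [ind_apply, if_pos (show y ∈ (D.A : Set G)ᶜ from hyA)] at h3
  have h3 := norm_sub_inner_smul_sq (norm_dl (1 : G)) (x (dl 1)) (η 1)
  rw [← h2, norm_sub_rev] at h3
  have h4 := pow_le_pow_left₀ (norm_nonneg _) hη2 2
  rw [div_pow, hsq] at h4
  nlinarith [sq_nonneg ‖η 1 - ⟪dl 1, x (dl 1)⟫_ℂ‖]

/-- Operators on `ℓ²(A)` commuting with the translations. -/
structure GData.Conv (T : L2 G →L[ℂ] L2 G) : Prop where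
  left : ind (D.A : Set G) * T = T
  right : T * ind (D.A : Set G) = T
  comm : ∀ g ∈ D.A, rho g * T = T * rho g

variable {D}

theorem GData.Conv.mul {S T : L2 G →L[ℂ] L2 G} (hS : D.Conv S) (hT : D.Conv T) : D.Conv (S * T) :=
  ⟨by rw [← mul_assoc, hS.left], by rw [mul_assoc, hT.right], fun g hg => by
    rw [← mul_assoc, hS.comm g hg, mul_assoc, hT.comm g hg, mul_assoc]⟩

theorem GData.Conv.sub {S T : L2 G →L[ℂ] L2 G} (hS : D.Conv S) (hT : D.Conv T) : D.Conv (S - T) :=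
  ⟨by rw [mul_sub, hS.left, hT.left], by rw [sub_mul, hS.right, hT.right], fun g hg => by
    rw [mul_sub, sub_mul, hS.comm g hg, hT.comm g hg]⟩

theorem GData.Conv.smul {T : L2 G →L[ℂ] L2 G} (hT : D.Conv T) (c : ℂ) : D.Conv (c • T) :=
  ⟨by rw [mul_smul_comm, hT.left], by rw [smul_mul_assoc, hT.right], fun g hg => by
    rw [mul_smul_comm, smul_mul_assoc, hT.comm g hg]⟩

theorem GData.rho_mul_ind {g : G} (hg : g ∈ D.A) :
    rho g * ind (D.A : Set G) = ind (D.A : Set G) * rho g :=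
  perm_mul_ind _ fun x => by simp [Subgroup.mul_mem_cancel_right _ hg]

theorem GData.conv_ind : D.Conv (ind (D.A : Set G)) :=
  ⟨ind_mul_self _, ind_mul_self _, fun _ hg => D.rho_mul_ind hg⟩

theorem GData.Conv.apply_notMem {T : L2 G →L[ℂ] L2 G} (hT : D.Conv T) (ξ : L2 G) {x : G}
    (hx : x ∉ D.A) : T ξ x = 0 := by
  rw [← hT.left, mul_apply_eq_comp, ind_apply, if_neg (show x ∉ (D.A : Set G) from hx)]

theorem GData.Conv.apply_dl {T : L2 G →L[ℂ] L2 G} (hT : D.Conv T) {y : G} (hy : y ∈ D.A) :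
    T (dl y) = rho y⁻¹ (T (dl 1)) := by
  rw [← mul_apply_eq_comp, hT.comm _ (inv_mem hy), mul_apply_eq_comp, rho_dl, one_mul, inv_inv]

theorem GData.Conv.eq_zero {T : L2 G →L[ℂ] L2 G} (hT : D.Conv T) (h : T (dl 1) = 0) : T = 0 := by
  refine op_ext_dl fun y => ?_
  by_cases hy : y ∈ D.A
  · rw [hT.apply_dl hy, h, map_zero]; rfl
  · have h1 : ind (D.A : Set G) (dl y) = 0 := L2.ext (funext fun x => by
      rw [ind_apply, dl_apply]
      split_ifs with h2 h3
      · exact absurd (h3 ▸ h2) hy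
      · rfl
      · rfl)
    rw [← hT.right, mul_apply_eq_comp, h1, map_zero]; rfl

theorem GData.Conv.hasSum {S T : L2 G →L[ℂ] L2 G} (hS : D.Conv S) (hT : D.Conv T) (x : G) :
    HasSum (fun y => S (dl 1) (x * y⁻¹) * T (dl 1) y) (S (T (dl 1)) x) := by
  rw [← inner_dl, ← inner_star_apply]
  convert hasSum_inner' ((star S) (dl x)) (T (dl 1)) using 2 with y
  by_cases hy : y ∈ D.A
  · rw [← inner_dl y ((star S) (dl x)), inner_conj_symm, inner_star_apply, inner_dl, hS.apply_dl hy, rho_apply]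
  · rw [hT.apply_notMem _ hy, mul_zero, mul_zero]

theorem GData.Conv.commute {S T : L2 G →L[ℂ] L2 G} (hS : D.Conv S) (hT : D.Conv T) :
    S * T = T * S := by
  refine sub_eq_zero.1 (((hS.mul hT).sub (hT.mul hS)).eq_zero (sub_eq_zero.2 (L2.ext
    (funext fun x => ?_))))
  show S (T (dl 1)) x = T (S (dl 1)) x
  by_cases hx : x ∈ D.A
  · refine (hS.hasSum hT x).unique (((Equiv.inv G).trans (Equiv.mulRight x)).hasSum_iff.1 ?_)
    convert hT.hasSum hS x using 2 with y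
    simp only [Function.comp_apply, Equiv.trans_apply, Equiv.inv_apply, Equiv.coe_mulRight,
      mul_inv_rev, inv_inv, mul_inv_cancel_left]
    by_cases hy : y ∈ D.A
    · rw [D.comm _ (inv_mem hy) _ hx, mul_comm]
    · rw [hS.apply_notMem _ hy, mul_zero, zero_mul]
  · rw [hS.apply_notMem _ hx, hT.apply_notMem _ hx]

theorem rho_mul_cj (g t : G) : rho g * cj t = cj t * rho (t⁻¹ * g * t) :=
  op_ext_apply fun ξ x => by
    simp only [mul_apply_eq_comp, rho_apply, cj_apply, mul_assoc, mul_inv_cancel_left]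

theorem GData.Conv.conj {T : L2 G →L[ℂ] L2 G} (hT : D.Conv T) (t : G) :
    D.Conv (cj t * T * cj t⁻¹) := by
  refine ⟨?_, ?_, fun g hg => ?_⟩
  · rw [← mul_assoc, ← mul_assoc, ← D.cj_mul_ind, mul_assoc (cj t), hT.left]
  · rw [mul_assoc, D.cj_mul_ind, ← mul_assoc, mul_assoc (cj t), hT.right]
  · have h1 := rho_mul_cj (t⁻¹ * g * t) t⁻¹
    have h2 : t⁻¹⁻¹ * (t⁻¹ * g * t) * t⁻¹ = g := by group
    rw [h2] at h1
    rw [← mul_assoc, ← mul_assoc, rho_mul_cj, mul_assoc (cj t), hT.comm _ ((D.normal g t).2 hg),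
      mul_assoc, mul_assoc, h1]
    simp only [mul_assoc]

/-- An almost shift invariant projection on `ℓ²(A)` commuting with translations is trivial. -/
theorem GData.Conv.trivial {e : L2 G →L[ℂ] L2 G} (he : D.Conv e) (h1 : e * e = e)
    (h2 : ‖cj (D.s 2) * e - e * cj (D.s 2)‖ < 1) : e = 0 ∨ e = ind (D.A : Set G) := by
  set t := D.s 2 with ht
  have h3 : cj t * e * cj t⁻¹ = e := by
    refine eq_of_commute_idem ?_ h1 ((he.conj t).commute he) ?_
    · calc cj t * e * cj t⁻¹ * (cj t * e * cj t⁻¹) = cj t * e * (cj t⁻¹ * cj t) * e * cj t⁻¹ := by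
            simp only [mul_assoc]
        _ = _ := by rw [cj_inv_mul, mul_one, mul_assoc (cj t), h1]
    · have h4 : cj t * e * cj t⁻¹ - e = (cj t * e - e * cj t) * cj t⁻¹ := by
        rw [sub_mul, mul_assoc e, cj_mul_inv, mul_one]
      rw [h4]
      exact ((norm_mul_le _ _).trans
        (mul_le_of_le_one_right (norm_nonneg _) (opNorm_cj_le _))).trans_lt h2
  have h4 : cj t (e (dl 1)) = e (dl 1) := by
    conv_rhs => rw [← h3, mul_apply_eq_comp, mul_apply_eq_comp, cj_dl_one]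
  have h5 : e (dl 1) = e (dl 1) 1 • dl 1 := eq_smul_dl fun y hy => by
    by_cases hyA : y ∈ D.A
    · exact D.inv_t h4 hyA hy
    · exact he.apply_notMem _ hyA
  generalize e (dl 1) 1 = c at h5
  have h6 : ind (D.A : Set G) (dl 1) = dl 1 := L2.ext (funext fun x => by
    rw [ind_apply, dl_apply]
    split_ifs with h7 h8 h8
    · rfl
    · rfl
    · exact absurd (h8 ▸ D.A.one_mem) h7
    · rfl)
  have h7 : e = c • ind (D.A : Set G) := sub_eq_zero.1
    ((he.sub (GData.conv_ind.smul c)).eq_zero (by rw [sub_apply, smul_apply, h6, h5, sub_self]))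
  have h8 : (c * c) • dl (1 : G) = c • dl 1 := by
    rw [← h5, ← h1, mul_apply_eq_comp, h5, map_smul, h5, smul_smul]
  have h9 : c * c = c := by
    have h10 : ((c * c) • dl (1 : G)) 1 = (c • dl (1 : G)) 1 := by rw [h8]
    simpa [dl_apply] using h10
  rcases mul_eq_zero.1 (show c * (c - 1) = 0 by rw [mul_sub, h9, mul_one, sub_self]) with h | h
  · left; rw [h7, h, zero_smul]
  · right; rw [h7, sub_eq_zero.1 h, one_smul]

variable (D)

theorem norm_cj_comm_le {p : L2 G →L[ℂ] L2 G} (hp : p ∈ LG G) (g : G) (ξ : L2 G) :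
    ‖(cj g * p - p * cj g) ξ‖ ≤ ‖lam g * p - p * lam g‖ * ‖ξ‖ := by
  rw [cj_mul_of_mem hp, mul_apply_eq_comp, ← norm_rho g ξ]
  exact ContinuousLinearMap.le_opNorm _ _

theorem GData.offdiag {p : L2 G →L[ℂ] L2 G} (hp : p ∈ LG G) {ε : ℝ}
    (h : ∀ i, ‖lam (D.s i) * p - p * lam (D.s i)‖ ≤ ε) :
    ‖ind (D.A : Set G)ᶜ * p * ind (D.A : Set G)‖ ≤ 5 * ε := by
  have hε : 0 ≤ ε := (norm_nonneg _).trans (h 0)
  refine ContinuousLinearMap.opNorm_le_bound _ (by positivity) fun ξ => ?_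
  have h1 : ∀ i, (∀ x ∈ D.A, (D.s i)⁻¹ * x * D.s i = x) →
      ‖cj (D.s i) (p (ind (D.A : Set G) ξ)) - p (ind (D.A : Set G) ξ)‖ ≤ ε * ‖ξ‖ := fun i hi => by
    have h2 : cj (D.s i) (ind (D.A : Set G) ξ) = ind (D.A : Set G) ξ := L2.ext (funext fun x => by
      simp only [cj_apply, ind_apply, SetLike.mem_coe, D.normal]
      split_ifs with hx
      · rw [hi x hx]
      · rfl)
    have h3 := norm_cj_comm_le hp (D.s i) (ind (D.A : Set G) ξ)
    rw [sub_apply, mul_apply_eq_comp, mul_apply_eq_comp, h2] at h3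
    exact h3.trans (mul_le_mul (h i) (norm_ind_le _ _) (norm_nonneg _) hε)
  have h2 := D.norm_indc_le (h1 0 D.fix0) (h1 1 D.fix1)
  rw [mul_assoc 5]
  exact h2

theorem GData.dichotomy {p : L2 G →L[ℂ] L2 G} (hp : p ∈ LG G) (hsa : IsSelfAdjoint p)
    (hpp : p * p = p) (h : ∀ i, ‖lam (D.s i) * p - p * lam (D.s i)‖ ≤ 1 / 100) :
    ‖ind (D.A : Set G) * p * ind (D.A : Set G)‖ ≤ 1 / 200 ∨
      ‖ind (D.A : Set G) * (1 - p) * ind (D.A : Set G)‖ ≤ 1 / 200 := by
  have h1 := D.offdiag hp h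
  rw [← one_sub_ind] at h1
  have hc := D.cj_mul_ind (D.s 2)
  have hρ : ∀ g ∈ D.A, _ := fun g hg => D.rho_mul_ind hg
  have hPP := ind_mul_self (D.A : Set G)
  have hPs := star_ind (D.A : Set G)
  have hPn := opNorm_ind_le (D.A : Set G)
  set P := ind (D.A : Set G) with hP
  have hfsa : IsSelfAdjoint (P * p * P) := by
    show star _ = _
    rw [star_mul, star_mul, hPs, hsa.star_eq, mul_assoc]
  have h2 : ‖P * p * P * (P * p * P) - P * p * P‖ ≤ 1 / 400 := by
    have h3 : star ((1 - P) * p * P) * ((1 - P) * p * P) = P * p * P - P * p * P * (P * p * P) := by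
      rw [star_mul, star_mul, star_sub, star_one, hPs, hsa.star_eq]
      calc P * (p * (1 - P)) * ((1 - P) * p * P)
          = P * (p * p) * P - P * p * P * p * P - P * p * P * p * P + P * p * (P * P) * p * P := by
            noncomm_ring
        _ = P * p * P - P * p * (P * P) * p * P := by rw [hpp, hPP]; abel
        _ = _ := by noncomm_ring
    have h4 : ‖star ((1 - P) * p * P) * ((1 - P) * p * P)‖ =
        ‖(1 - P) * p * P‖ * ‖(1 - P) * p * P‖ := CStarRing.norm_star_mul_self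
    rw [norm_sub_rev, ← h3, h4]
    nlinarith [norm_nonneg ((1 - P) * p * P)]
  obtain ⟨e, -, he2, he3, he4⟩ := exists_proj_near hfsa (by norm_num) h2
  have heP : e * P = P * e := (he4 P (by
    show _ = _
    rw [mul_assoc, hPP, ← mul_assoc, ← mul_assoc, hPP])).eq
  have he5 : e * P = e := by
    have h3 : e * (1 - P) = (e - P * p * P) * (1 - P) := by
      rw [sub_mul, mul_assoc (P * p), mul_sub P, mul_one, hPP, sub_self, mul_zero, sub_zero]
    have h4 : ‖1 - P‖ ≤ 1 := by rw [hP, one_sub_ind]; exact opNorm_ind_le _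
    have h5 : e * (1 - P) = 0 := by
      refine eq_zero_of_idem ?_ ?_
      · calc e * (1 - P) * (e * (1 - P))
            = e * e - e * e * P - e * (P * e) + e * (P * e) * P := by noncomm_ring
          _ = e * e - e * e * P - e * e * P + e * e * (P * P) := by rw [← heP]; noncomm_ring
          _ = _ := by rw [he2, hPP, mul_sub, mul_one]; abel
      · rw [h3]
        refine ((norm_mul_le _ _).trans (mul_le_of_le_one_right (norm_nonneg _) h4)).trans_lt ?_
        linarith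
    rw [mul_sub, mul_one, sub_eq_zero] at h5
    exact h5.symm
  have hconv : D.Conv e := ⟨by rw [← hP, ← heP, he5], he5, fun g hg => (he4 (rho g) (by
    show _ = _
    rw [mul_assoc, ← hρ g hg, ← mul_assoc, mul_assoc P, ← mem_LG.1 hp g, ← mul_assoc, ← hρ g hg]
    simp only [mul_assoc])).eq.symm⟩
  have h3 : ‖cj (D.s 2) * e - e * cj (D.s 2)‖ < 1 := by
    have h4 : cj (D.s 2) * e - e * cj (D.s 2) = P * (cj (D.s 2) * p - p * cj (D.s 2)) * P +
        cj (D.s 2) * (e - P * p * P) - (e - P * p * P) * cj (D.s 2) := by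
      calc _ = cj (D.s 2) * P * p * P - P * p * (P * cj (D.s 2)) +
          cj (D.s 2) * (e - P * p * P) - (e - P * p * P) * cj (D.s 2) := by noncomm_ring
        _ = _ := by rw [← hc]; nth_rw 1 [hc]; noncomm_ring
    have h5 : ‖cj (D.s 2) * p - p * cj (D.s 2)‖ ≤ 1 / 100 :=
      ContinuousLinearMap.opNorm_le_bound _ (by norm_num) fun ξ =>
        (norm_cj_comm_le hp _ ξ).trans (mul_le_mul_of_nonneg_right (h 2) (norm_nonneg _))
    have h6 : ‖P * (cj (D.s 2) * p - p * cj (D.s 2)) * P‖ ≤ 1 / 100 :=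
      (norm_mul_le _ _).trans ((mul_le_of_le_one_right (norm_nonneg _) hPn).trans
        ((norm_mul_le _ _).trans ((mul_le_of_le_one_left (norm_nonneg _) hPn).trans h5)))
    have h7 : ‖cj (D.s 2) * (e - P * p * P)‖ ≤ 2 * (1 / 400) := (norm_mul_le _ _).trans
      ((mul_le_of_le_one_left (norm_nonneg _) (opNorm_cj_le _)).trans he3)
    have h8 : ‖(e - P * p * P) * cj (D.s 2)‖ ≤ 2 * (1 / 400) := (norm_mul_le _ _).trans
      ((mul_le_of_le_one_right (norm_nonneg _) (opNorm_cj_le _)).trans he3)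
    rw [h4]
    refine ((norm_sub_le _ _).trans (add_le_add (norm_add_le _ _) le_rfl)).trans_lt ?_
    linarith
  rcases hconv.trivial he2 h3 with h4 | h4
  · left
    rw [h4, zero_sub, norm_neg] at he3
    linarith
  · right
    rw [mul_sub, mul_one, sub_mul, hPP]
    rw [h4] at he3
    linarith

theorem GData.eq_zero_of_small {p : L2 G →L[ℂ] L2 G} (hp : p ∈ LG G) (hsa : IsSelfAdjoint p)
    (hpp : p * p = p) (h : ∀ i, ‖lam (D.s i) * p - p * lam (D.s i)‖ ≤ 1 / 100)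
    (h0 : ‖ind (D.A : Set G) * p * ind (D.A : Set G)‖ ≤ 1 / 200) : p = 0 := by
  have h1 : ‖ind (D.A : Set G) * p‖ ≤ 1 / 10 := by
    have h2 : ind (D.A : Set G) * p * star (ind (D.A : Set G) * p) =
        ind (D.A : Set G) * p * ind (D.A : Set G) := by
      rw [star_mul, hsa.star_eq, star_ind, ← mul_assoc, mul_assoc _ p p, hpp]
    have h4 : ‖ind (D.A : Set G) * p * star (ind (D.A : Set G) * p)‖ =
        ‖ind (D.A : Set G) * p‖ * ‖ind (D.A : Set G) * p‖ := CStarRing.norm_self_mul_star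
    rw [← h2, h4] at h0
    nlinarith [norm_nonneg (ind (D.A : Set G) * p)]
  have h2 : ‖ind (D.A : Set G) (p (dl 1))‖ ≤ 1 / 10 * ‖p (dl 1)‖ := by
    have h3 := (ind (D.A : Set G) * p).le_opNorm (p (dl 1))
    rw [mul_apply_eq_comp, ← mul_apply_eq_comp p p, hpp] at h3
    exact h3.trans (mul_le_mul_of_nonneg_right h1 (norm_nonneg _))
  have h3 : ∀ i, ‖cj (D.s i) (p (dl 1)) - p (dl 1)‖ ≤ 1 / 50 * ‖p (dl 1)‖ := fun i => by
    rw [norm_cj_hat_sub hp]
    have hk : lam (D.s i) * p - p * lam (D.s i) ∈ LG G :=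
      sub_mem (mul_mem (lam_mem _) hp) (mul_mem hp (lam_mem _))
    have hi := h i
    have h4 : lam (D.s i) * p - p * lam (D.s i) = (lam (D.s i) * p - p * lam (D.s i)) * p +
        p * (lam (D.s i) * p - p * lam (D.s i)) := by
      calc _ = lam (D.s i) * (p * p) - (p * p) * lam (D.s i) := by rw [hpp]
        _ = _ := by noncomm_ring
    generalize lam (D.s i) * p - p * lam (D.s i) = k at hk hi h4
    have h5 := k.le_opNorm (p (dl 1))
    have h6 := isTV_LG.norm_mul_right hp hk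
    have h7 := mul_le_mul_of_nonneg_right hi (norm_nonneg (p (dl 1)))
    have h8 : ‖k (dl 1)‖ ≤ ‖k (p (dl 1))‖ + ‖p (k (dl 1))‖ := by
      conv_lhs => rw [h4]
      exact norm_add_le _ _
    linarith
  have h4 := D.norm_indc_le (h3 0) (h3 1)
  have h5 : ‖p (dl 1)‖ ≤ ‖ind (D.A : Set G) (p (dl 1))‖ + ‖ind (D.A : Set G)ᶜ (p (dl 1))‖ := by
    refine le_trans (le_of_eq ?_) (norm_add_le _ _)
    rw [← one_sub_ind, sub_apply, one_apply_eq_self, add_sub_cancel]
  exact isTV_LG.sep p hp (norm_eq_zero.1 (le_antisymm (by linarith) (norm_nonneg _)))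

include D in
theorem GData.rigid_LG : Rigid (LG G) := by
  refine ⟨fun i => lam (D.s i), fun i => ⟨lam_mem _, opNorm_lam_le _⟩, fun p hp hsa hpp h => ?_⟩
  rcases D.dichotomy hp hsa hpp h with h1 | h1
  · exact Or.inl (D.eq_zero_of_small hp hsa hpp h h1)
  · refine Or.inr (sub_eq_zero.1 (D.eq_zero_of_small (sub_mem (one_mem _) hp)
      ((IsSelfAdjoint.one _).sub hsa) ?_ (fun i => ?_) h1)).symm
    · simp only [sub_mul, mul_sub, one_mul, mul_one, hpp, sub_self, sub_zero]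
    · have h2 : lam (D.s i) * (1 - p) - (1 - p) * lam (D.s i) =
          -(lam (D.s i) * p - p * lam (D.s i)) := by noncomm_ring
      rw [h2, norm_neg]
      exact h i

end Pool.Agent.MP_755d6b_an.H98
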