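import Pool.Agent.MP_755d6b_an.H98.Std

/-!
# A rigid algebra and a soft algebra have non-isomorphic norm ultrapowers
-/

namespace Pool.Agent.MP_755d6b_an.H98

open Filter Topology
open scoped ComplexOrder InnerProductSpace

universe u v

variable {H : Type} [NormedAddCommGroup H] [InnerProductSpace ℂ H] [CompleteSpace H]

/-- `ℓ^∞(I, N)` as a star subalgebra. -/
def BddS (I : Type u) (N : VonNeumannAlgebra H) : StarSubalgebra ℂ (I → (H →L[ℂ] H)) where
  carrier := {x | (∀ i, x i ∈ N) ∧ ∃ C : ℝ, ∀ i, ‖x i‖ ≤ C}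
  mul_mem' := fun {x y} hx hy => (Bdd.mul ⟨x, hx⟩ ⟨y, hy⟩).2
  add_mem' := fun {x y} hx hy => (Bdd.add ⟨x, hx⟩ ⟨y, hy⟩).2
  algebraMap_mem' := fun c =>
    ⟨fun _ => N.toStarSubalgebra.algebraMap_mem c, ‖algebraMap ℂ (H →L[ℂ] H) c‖, fun _ => le_rfl⟩
  star_mem' := fun {x} hx => (Bdd.star ⟨x, hx⟩).2

section Mk

variable {N : VonNeumannAlgebra H} {ν : (H →L[ℂ] H) → ℝ} {I : Type u} (h : IsGauge N ν)
  (U : Ultrafilter I)

/-- The class map. -/
def mkS (x : BddS I N) : Ultrapower h U := Ultrapower.mk h U ⟨x.1, x.2⟩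

theorem mk_surj (X : Ultrapower h U) : ∃ x, mkS h U x = X := by
  obtain ⟨x, hx⟩ := Quotient.exists_rep X
  exact ⟨⟨x.1, x.2⟩, hx⟩

theorem mk_eq_iff (x y : BddS I N) : mkS h U x = mkS h U y ↔
    Tendsto (fun i => ν (x.1 i - y.1 i)) U (𝓝 0) :=
  Quotient.eq

theorem mk_mul (x y : BddS I N) : mkS h U (x * y) = mkS h U x * mkS h U y := rfl

theorem mk_add (x y : BddS I N) : mkS h U (x + y) = mkS h U x + mkS h U y := rfl

theorem mk_star (x : BddS I N) : mkS h U (star x) = star (mkS h U x) := rfl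

theorem mk_smul (c : ℂ) (x : BddS I N) : mkS h U (c • x) = c • mkS h U x := rfl

theorem mk_zero_add (X : Ultrapower h U) : mkS h U 0 + X = X := by
  obtain ⟨x, rfl⟩ := mk_surj h U X
  rw [← mk_add, zero_add]

theorem mk_one_mul (X : Ultrapower h U) : mkS h U 1 * X = X := by
  obtain ⟨x, rfl⟩ := mk_surj h U X
  rw [← mk_mul, one_mul]

end Mk

/-- The constant family. -/
def constB (I : Type u) {N : VonNeumannAlgebra H} {x : H →L[ℂ] H} (hx : x ∈ N) : BddS I N :=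
  ⟨fun _ => x, fun _ => hx, ‖x‖, fun _ => le_rfl⟩

theorem norm_proj_eq_one {p : H →L[ℂ] H} (h1 : IsSelfAdjoint p) (h2 : p * p = p) (h3 : p ≠ 0) :
    ‖p‖ = 1 := by
  have h4 : ‖star p * p‖ = ‖p‖ * ‖p‖ := CStarRing.norm_star_mul_self
  rw [h1.star_eq, h2] at h4
  have h5 : ‖p‖ ≠ 0 := norm_ne_zero_iff.2 h3
  exact (mul_left_cancel₀ h5 (by rw [mul_one]; exact h4)).symm

theorem approx_rigid {N : VonNeumannAlgebra H} {s : Fin 3 → H →L[ℂ] H}
    (hs : ∀ i, s i ∈ N ∧ ‖s i‖ ≤ 1)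
    (hr : ∀ p ∈ N, IsSelfAdjoint p → p * p = p → (∀ i, ‖s i * p - p * s i‖ ≤ 1 / 100) →
      p = 0 ∨ p = 1)
    {q : H →L[ℂ] H} (hq : q ∈ N) (hsa : IsSelfAdjoint q) {ε : ℝ} (hε : ε ≤ 1 / 500)
    (h1 : ‖q * q - q‖ ≤ ε) (h2 : ∀ i, ‖s i * q - q * s i‖ ≤ ε) :
    ‖q‖ ≤ 2 * ε ∨ ‖q - 1‖ ≤ 2 * ε := by
  obtain ⟨e, he1, he2, he3, he4⟩ := exists_proj_near hsa (by linarith) h1
  have h3 : ∀ i, ‖s i * e - e * s i‖ ≤ 1 / 100 := fun i => by
    have h4 : s i * e - e * s i = (s i * q - q * s i) + s i * (e - q) - (e - q) * s i := by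
      noncomm_ring
    have h5 : ‖s i * (e - q)‖ ≤ 2 * ε := (norm_mul_le _ _).trans
      ((mul_le_of_le_one_left (norm_nonneg _) (hs i).2).trans he3)
    have h6 : ‖(e - q) * s i‖ ≤ 2 * ε := (norm_mul_le _ _).trans
      ((mul_le_of_le_one_right (norm_nonneg _) (hs i).2).trans he3)
    rw [h4]
    have h7 := norm_sub_le ((s i * q - q * s i) + s i * (e - q)) ((e - q) * s i)
    have h8 := norm_add_le (s i * q - q * s i) (s i * (e - q))
    linarith [h2 i]
  rcases hr e (mem_vN_of_commute hq he4) he1 he2 h3 with h | h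
  · left; simpa [h] using he3
  · right; rw [norm_sub_rev]; simpa [h] using he3

variable {K : Type} [NormedAddCommGroup K] [InnerProductSpace ℂ K] [CompleteSpace K]

theorem isEmpty_of_rigid_soft {N : VonNeumannAlgebra H} {M : VonNeumannAlgebra K}
    [Nontrivial H] (hN : Rigid N) (hM : Soft M) {I : Type u} {J : Type v} (U : Ultrafilter I)
    (V : Ultrafilter J) :
    IsEmpty (Ultrapower (isGauge_norm N) U ≃⋆ₐ[ℂ] Ultrapower (isGauge_norm M) V) := by
  refine ⟨fun Φ => ?_⟩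
  obtain ⟨s, hs, hr⟩ := hN
  let S : Fin 3 → Ultrapower (isGauge_norm N) U := fun i =>
    mkS (isGauge_norm N) U (constB I (hs i).1)
  choose y hy using fun i => mk_surj (isGauge_norm M) V (Φ (S i))
  choose p hpM hp1 hp2 hp3 hp4 hp5 using fun j => hM (fun i => (y i).1 j) (fun i => (y i).2.1 j)
  have hpn : ∀ j, ‖p j‖ = 1 := fun j => norm_proj_eq_one (hp1 j) (hp2 j) (hp3 j)
  have hpn' : ∀ j, ‖p j - 1‖ = 1 := fun j => by
    rw [norm_sub_rev]
    refine norm_proj_eq_one ((IsSelfAdjoint.one _).sub (hp1 j)) ?_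
      (sub_ne_zero.2 (hp4 j).symm)
    simp only [sub_mul, mul_sub, one_mul, mul_one, hp2 j, sub_self, sub_zero]
  let pB : BddS J M := ⟨p, hpM, 1, fun j => (hpn j).le⟩
  let P : Ultrapower (isGauge_norm M) V := mkS (isGauge_norm M) V pB
  have hP1 : star P = P := by
    rw [← mk_star]
    congr 1
    exact Subtype.ext (funext fun j => (hp1 j).star_eq)
  have hP2 : P * P = P := by
    rw [← mk_mul]
    congr 1
    exact Subtype.ext (funext fun j => hp2 j)
  have hP3 : P ≠ mkS (isGauge_norm M) V 0 := by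
    intro h0
    have h1 := (mk_eq_iff (isGauge_norm M) V pB 0).1 h0
    have h2 : (fun j => ‖pB.1 j - (0 : BddS J M).1 j‖) = fun _ => (1 : ℝ) :=
      funext fun j => by simpa using hpn j
    rw [h2] at h1
    exact one_ne_zero (tendsto_const_nhds_iff.1 h1)
  have hP4 : P ≠ mkS (isGauge_norm M) V 1 := by
    intro h0
    have h1 := (mk_eq_iff (isGauge_norm M) V pB 1).1 h0
    have h2 : (fun j => ‖pB.1 j - (1 : BddS J M).1 j‖) = fun _ => (1 : ℝ) :=
      funext fun j => hpn' j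
    rw [h2] at h1
    exact one_ne_zero (tendsto_const_nhds_iff.1 h1)
  have hP5 : ∀ i, Φ (S i) * P = P * Φ (S i) := fun i => by
    rw [← hy i, ← mk_mul, ← mk_mul]
    congr 1
    exact Subtype.ext (funext fun j => hp5 j i)
  obtain ⟨q, hq⟩ := mk_surj (isGauge_norm N) U (Φ.symm P)
  let r : BddS I N := (1 / 2 : ℂ) • (q + star q)
  have hr0 : mkS (isGauge_norm N) U r = Φ.symm P := by
    rw [mk_smul, mk_add, mk_star, hq, ← map_star, hP1, ← map_add, ← map_smul, ← mk_add, ← mk_smul,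
      ← two_smul ℂ, smul_smul]
    norm_num
    rfl
  have hrsa : ∀ i, IsSelfAdjoint (r.1 i) := fun i => by
    show star ((1 / 2 : ℂ) • (q.1 i + star (q.1 i))) = (1 / 2 : ℂ) • (q.1 i + star (q.1 i))
    rw [star_smul, star_add, star_star, add_comm]
    simp
  have hr1 : Tendsto (fun i => ‖r.1 i * r.1 i - r.1 i‖) U (𝓝 0) := by
    refine (mk_eq_iff (isGauge_norm N) U (r * r) r).1 ?_
    rw [mk_mul, hr0, ← map_mul, hP2]
  have hr2 : ∀ k, Tendsto (fun i => ‖s k * r.1 i - r.1 i * s k‖) U (𝓝 0) := fun k => by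
    refine (mk_eq_iff (isGauge_norm N) U (constB I (hs k).1 * r) (r * constB I (hs k).1)).1 ?_
    rw [mk_mul, mk_mul, hr0]
    apply EquivLike.injective Φ
    rw [map_mul, map_mul, StarAlgEquiv.apply_symm_apply]
    exact hP5 k
  have hev : ∀ ε : ℝ, 0 < ε → ε ≤ 1 / 500 →
      ∀ᶠ i in (U : Filter I), ‖r.1 i‖ ≤ 2 * ε ∨ ‖r.1 i - 1‖ ≤ 2 * ε := fun ε h0 h1 => by
    filter_upwards [hr1.eventually (ge_mem_nhds h0),
      eventually_all.2 fun k => (hr2 k).eventually (ge_mem_nhds h0)] with i h2 h3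
    exact approx_rigid hs hr (r.2.1 i) (hrsa i) h1 h2 h3
  have hone : ∀ i, 1 ≤ ‖r.1 i‖ + ‖r.1 i - 1‖ := fun i => by
    have h1 := norm_sub_le (r.1 i) (r.1 i - 1)
    simpa using h1
  have hsmall : ∀ (f g : I → ℝ), (∀ i, 0 ≤ f i) → (∀ i, 1 ≤ f i + g i) →
      (∀ᶠ i in (U : Filter I), f i ≤ 2 * (1 / 500)) →
      (∀ ε : ℝ, 0 < ε → ε ≤ 1 / 500 → ∀ᶠ i in (U : Filter I), f i ≤ 2 * ε ∨ g i ≤ 2 * ε) →
      Tendsto f U (𝓝 0) := fun f g hf hfg h1 h2 => by
    refine tendsto_order.2 ⟨fun a ha => Eventually.of_forall fun i => ha.trans_le (hf i),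
      fun a ha => ?_⟩
    filter_upwards [h1, h2 (min (a / 4) (1 / 500)) (by positivity) (min_le_right _ _)]
      with i h3 h4
    have h5 := min_le_left (a / 4) (1 / 500)
    have h6 := min_le_right (a / 4) (1 / 500)
    rcases h4 with h4 | h4
    · linarith
    · linarith [hfg i]
  rcases Ultrafilter.eventually_or.1 (hev (1 / 500) (by norm_num) le_rfl) with h | h
  · apply hP3
    have h1 := hsmall _ _ (fun i => norm_nonneg _) hone h hev
    have h2 : mkS (isGauge_norm N) U r = mkS (isGauge_norm N) U 0 :=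
      (mk_eq_iff _ U r 0).2 (by simpa using h1)
    rw [hr0] at h2
    have h3 := congrArg Φ (mk_zero_add (isGauge_norm N) U (Φ.symm (mkS (isGauge_norm M) V 0)))
    rwa [← h2, map_add, Φ.apply_symm_apply, Φ.apply_symm_apply, ← mk_add, add_zero] at h3
  · apply hP4
    have h1 := hsmall (fun i => ‖r.1 i - 1‖) (fun i => ‖r.1 i‖) (fun i => norm_nonneg _)
      (fun i => by linarith [hone i]) h
      (fun ε h0 h1 => (hev ε h0 h1).mono fun i hi => hi.symm)
    have h2 : mkS (isGauge_norm N) U r = mkS (isGauge_norm N) U 1 :=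
      (mk_eq_iff _ U r 1).2 h1
    rw [hr0] at h2
    have h3 := congrArg Φ (mk_one_mul (isGauge_norm N) U (Φ.symm (mkS (isGauge_norm M) V 1)))
    rwa [← h2, map_mul, Φ.apply_symm_apply, Φ.apply_symm_apply, ← mk_mul, mul_one] at h3

end Pool.Agent.MP_755d6b_an.H98
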