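import Mathlib

/-!
# Functional calculus lemmas
-/

namespace Pool.Agent.MP_755d6b_an.H98

open scoped ComplexOrder InnerProductSpace

section Alg

variable {A : Type*} [CStarAlgebra A]

/-- An approximate projection is close to a projection in its bicommutant. -/
theorem exists_proj_near {q : A} (hq : IsSelfAdjoint q) {δ : ℝ} (hδ : δ < 1 / 4)
    (h : ‖q * q - q‖ ≤ δ) :
    ∃ e : A, IsSelfAdjoint e ∧ e * e = e ∧ ‖e - q‖ ≤ 2 * δ ∧ ∀ y, Commute q y → Commute e y := by
  have hδ0 : 0 ≤ δ := (norm_nonneg _).trans h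
  have hsp : ∀ x ∈ spectrum ℝ q, |x * x - x| ≤ δ := by
    intro x hx
    have h1 : cfc (fun x : ℝ => x * x - x) q = q * q - q := by
      rw [cfc_sub _ _ q, cfc_mul _ _ q, cfc_id' ℝ q]
    have h2 := norm_apply_le_norm_cfc (fun x : ℝ => x * x - x) q hx
    rw [h1] at h2
    exact h2.trans h
  let g : ℝ → ℝ := fun x => if 1 / 2 ≤ x then 1 else 0
  have hg : ContinuousOn g (spectrum ℝ q) := by
    intro x hx
    have hx2 : x ≠ 1 / 2 := by
      rintro rfl
      have := hsp _ hx
      rw [abs_le] at this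
      linarith [this.1]
    apply ContinuousAt.continuousWithinAt
    rcases lt_or_gt_of_ne hx2 with h1 | h1
    · refine (continuousAt_const (y := (0 : ℝ))).congr ?_
      filter_upwards [gt_mem_nhds h1] with y hy
      simp only [g, if_neg (not_le.2 hy)]
    · refine (continuousAt_const (y := (1 : ℝ))).congr ?_
      filter_upwards [lt_mem_nhds h1] with y hy
      simp only [g, if_pos hy.le]
  refine ⟨cfc g q, cfc_predicate g q, ?_, ?_, fun y hy => hy.cfc_real g⟩
  · rw [← cfc_mul g g q]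
    refine cfc_congr fun x _ => ?_
    simp only [g]
    split_ifs <;> simp
  · have h1 : cfc g q - q = cfc (fun x => g x - x) q := by
      rw [cfc_sub g (fun x => x) q, cfc_id' ℝ q]
    rw [h1]
    refine norm_cfc_le (by positivity) fun x hx => ?_
    have h2 := abs_le.1 (hsp x hx)
    simp only [g, Real.norm_eq_abs]
    split_ifs with h3
    · rw [abs_le]; constructor <;> nlinarith [h2.1, h2.2]
    · rw [abs_le]; constructor <;> nlinarith [h2.1, h2.2]

theorem eq_zero_of_cube {x : A} (h : x * x * x = x) (h1 : ‖x‖ < 1) : x = 0 := by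
  have h2 : ‖x‖ ≤ ‖x‖ * ‖x‖ * ‖x‖ := by
    calc ‖x‖ = ‖x * x * x‖ := by rw [h]
      _ ≤ ‖x * x‖ * ‖x‖ := norm_mul_le _ _
      _ ≤ _ := mul_le_mul_of_nonneg_right (norm_mul_le _ _) (norm_nonneg _)
  by_contra h3
  have h4 : 0 < ‖x‖ := norm_pos_iff.2 h3
  have h5 : ‖x‖ * ‖x‖ < 1 := by nlinarith
  nlinarith

theorem eq_of_commute_idem {e f : A} (he : e * e = e) (hf : f * f = f) (hc : e * f = f * e)
    (h : ‖e - f‖ < 1) : e = f := by
  refine sub_eq_zero.1 (eq_zero_of_cube ?_ h)
  have h1 : (e - f) * (e - f) = e + f - (e * f + e * f) := by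
    rw [sub_mul, mul_sub, mul_sub, he, hf, ← hc]; abel
  have h2 : e * f * e = e * f := by rw [mul_assoc, ← hc, ← mul_assoc, he]
  have h3 : e * f * f = e * f := by rw [mul_assoc, hf]
  rw [h1]
  simp only [sub_mul, mul_sub, add_mul, he, hf, h2, h3, ← hc]
  abel

theorem eq_zero_of_idem {e : A} (he : e * e = e) (h : ‖e‖ < 1) : e = 0 :=
  eq_zero_of_cube (by rw [he, he]) h

/-- The inverse of `1 + x²` for self-adjoint `x`. -/
theorem exists_inv_one_add_sq {x : A} (hx : IsSelfAdjoint x) :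
    ∃ c : A, c * (1 + x * x) = 1 ∧ (1 + x * x) * c = 1 ∧ ‖c‖ ≤ 1 ∧ ‖x * c‖ ≤ 1 / 2 ∧
      ‖c * x‖ ≤ 1 / 2 ∧ ∀ y, Commute x y → Commute c y := by
  let g : ℝ → ℝ := fun t => (1 + t * t)⁻¹
  have hpos : ∀ t : ℝ, 0 < 1 + t * t := fun t => by nlinarith [mul_self_nonneg t]
  have hg : Continuous g := Continuous.inv₀ (by fun_prop) fun t => (hpos t).ne'
  have h1 : 1 + x * x = cfc (fun t : ℝ => 1 + t * t) x := by
    rw [cfc_add x _ _, cfc_mul _ _ x, cfc_id' ℝ x, cfc_const_one ℝ x]
  have h2 : x * cfc g x = cfc (fun t : ℝ => t * g t) x := by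
    rw [cfc_mul _ _ x, cfc_id' ℝ x]
  have h3 : cfc g x * x = cfc (fun t : ℝ => g t * t) x := by
    rw [cfc_mul _ _ x, cfc_id' ℝ x]
  have h4 : ∀ t : ℝ, ‖t * g t‖ ≤ 1 / 2 := fun t => by
    simp only [g, Real.norm_eq_abs]
    rw [← div_eq_mul_inv, abs_div, abs_of_pos (hpos t), div_le_iff₀ (hpos t)]
    nlinarith [sq_nonneg (|t| - 1), abs_mul_abs_self t]
  refine ⟨cfc g x, ?_, ?_, ?_, ?_, ?_, fun y hy => hy.cfc_real g⟩
  · rw [h1, ← cfc_mul _ _ x, ← cfc_const_one ℝ x]
    exact cfc_congr fun t _ => inv_mul_cancel₀ (hpos t).ne'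
  · rw [h1, ← cfc_mul _ _ x, ← cfc_const_one ℝ x]
    exact cfc_congr fun t _ => mul_inv_cancel₀ (hpos t).ne'
  · refine norm_cfc_le zero_le_one fun t _ => ?_
    simp only [g, Real.norm_eq_abs]
    rw [abs_of_pos (inv_pos.2 (hpos t))]
    exact inv_le_one_of_one_le₀ (by nlinarith [mul_self_nonneg t])
  · rw [h2]
    exact norm_cfc_le (by norm_num) fun t _ => h4 t
  · rw [h3]
    exact norm_cfc_le (by norm_num) fun t _ => by rw [mul_comm]; exact h4 t

/-- A self-adjoint contraction is `2S(1+S²)⁻¹` for a self-adjoint `S` in its bicommutant. -/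
theorem exists_cayley {T : A} (hT : IsSelfAdjoint T) (h1 : ‖T‖ ≤ 1) :
    ∃ S : A, IsSelfAdjoint S ∧ T * (1 + S * S) = S + S ∧ ∀ y, Commute T y → Commute S y := by
  let g : ℝ → ℝ := fun t => t / (1 + √(1 - t * t))
  have hpos : ∀ t : ℝ, 0 < 1 + √(1 - t * t) := fun t => by positivity
  have hg : Continuous g := Continuous.div (by fun_prop) (by fun_prop) fun t => (hpos t).ne'
  refine ⟨cfc g T, cfc_predicate g T, ?_, fun y hy => hy.cfc_real g⟩
  have h2 : T * (1 + cfc g T * cfc g T) = cfc (fun t => t * (1 + g t * g t)) T := by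
    rw [cfc_mul _ _ T, cfc_add T _ _, cfc_mul _ _ T, cfc_id' ℝ T, cfc_const_one ℝ T]
  rw [h2, ← cfc_add T _ _]
  refine cfc_congr fun t ht => ?_
  have h3 : |t| ≤ 1 := by
    have h4 := norm_apply_le_norm_cfc (fun t : ℝ => t) T ht
    rw [cfc_id' ℝ T] at h4
    exact h4.trans h1
  have h5 : 0 ≤ 1 - t * t := by nlinarith [abs_mul_abs_self t, abs_nonneg t]
  have h6 := Real.mul_self_sqrt h5
  have h7 := hpos t
  simp only [g]
  generalize √(1 - t * t) = r at h6 h7
  field_simp
  linear_combination t * h6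

/-- The identity behind the 2-norm Lipschitz bound for `x ↦ 2x(1+x²)⁻¹`. -/
theorem cayley_sub {R : Type*} [Ring R] {x y c d : R} (hc : c * (1 + x * x) = 1)
    (hd : (1 + y * y) * d = 1) :
    c * x - y * d = c * (x - y) * d + (c * x) * (y - x) * (y * d) := by
  have h1 : c * x = c * x * ((1 + y * y) * d) := by rw [hd, mul_one]
  have h2 : y * d = (c * (1 + x * x)) * (y * d) := by rw [hc, one_mul]
  calc c * x - y * d = c * x * ((1 + y * y) * d) - (c * (1 + x * x)) * (y * d) := by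
        rw [← h1, ← h2]
    _ = _ := by noncomm_ring

end Alg

section Hilbert

variable {H : Type*} [NormedAddCommGroup H] [InnerProductSpace ℂ H] [CompleteSpace H]

/-- If `k` is self-adjoint and neither `k` nor `-k` is positive, the bicommutant of `k` contains a
nontrivial projection. -/
theorem exists_proj_of_not_nonneg {k : H →L[ℂ] H} (hk : IsSelfAdjoint k) (h1 : ¬ 0 ≤ k)
    (h2 : ¬ 0 ≤ -k) :
    ∃ p : H →L[ℂ] H, IsSelfAdjoint p ∧ p * p = p ∧ p ≠ 0 ∧ p ≠ 1 ∧
      ∀ y, Commute k y → Commute p y := by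
  have hsub : k⁺ - k⁻ = k := CFC.posPart_sub_negPart k
  have hmul : k⁺ * k⁻ = 0 := CFC.posPart_mul_negPart k
  have hp : k⁺ ≠ 0 := by
    intro h
    apply h2
    rw [← hsub, h, zero_sub, neg_neg]
    exact CFC.negPart_nonneg k
  have hn : k⁻ ≠ 0 := by
    intro h
    apply h1
    rw [← hsub, h, sub_zero]
    exact CFC.posPart_nonneg k
  let V : Submodule ℂ H := (k⁺ : H →L[ℂ] H).ker
  have hVc : IsClosed (V : Set H) := (k⁺ : H →L[ℂ] H).isClosed_ker
  have : CompleteSpace V := hVc.completeSpace_coe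
  have hproj := isStarProjection_starProjection (U := V)
  have hinv : ∀ y, Commute k y → V.starProjection * y * V.starProjection = y * V.starProjection := by
    intro y hy
    have hy' : Commute k⁺ y := by
      rw [CFC.posPart_def]
      exact hy.cfcₙ_real _
    ext ξ
    simp only [mul_apply_eq_comp]
    refine Submodule.starProjection_eq_self_iff.2 ?_
    have h3 : k⁺ (V.starProjection ξ) = 0 := Submodule.starProjection_apply_mem V ξ
    show k⁺ (y (V.starProjection ξ)) = 0
    rw [← mul_apply_eq_comp, hy'.eq, mul_apply_eq_comp, h3, map_zero]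
  refine ⟨V.starProjection, hproj.isSelfAdjoint, hproj.isIdempotentElem, ?_, ?_, ?_⟩
  · intro h
    apply hn
    ext ξ
    have h3 : k⁻ ξ ∈ V := by
      show k⁺ (k⁻ ξ) = 0
      rw [← mul_apply_eq_comp, hmul]; rfl
    rw [← Submodule.starProjection_eq_self_iff.2 h3, h]
    rfl
  · intro h
    apply hp
    ext ξ
    have h3 : k⁺ (V.starProjection ξ) = 0 := Submodule.starProjection_apply_mem V ξ
    rw [h] at h3
    exact h3
  · intro y hy
    have hy2 : Commute k (star y) := by
      have := hy.star_star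
      rwa [hk.star_eq] at this
    have h3 := hinv y hy
    have h4 := congrArg star (hinv _ hy2)
    simp only [star_mul, star_star, hproj.isSelfAdjoint.star_eq] at h4
    rw [← mul_assoc] at h4
    exact h4.symm.trans h3

end Hilbert

end Pool.Agent.MP_755d6b_an.H98
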