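import Mathlib

/-!
# II₁ factors, tracial ultrapowers and norm ultrapowers

`N` is a von Neumann algebra on a complex Hilbert space `H` (Mathlib's `VonNeumannAlgebra`).
A trace on `N` is given by a function `τ` on the bounded operators on `H`; only its values on `N`
matter.
-/

namespace Pool.Agent.MP_755d6b_an.H98

open Filter Topology
open scoped ComplexOrder InnerProductSpace

universe u v

variable {H : Type} [NormedAddCommGroup H] [InnerProductSpace ℂ H] [CompleteSpace H]

/-- The restriction of `τ` to `N` is a faithful normal tracial state. Normality is continuity on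
the unit ball of `N` for the weak operator topology. -/
structure IsTrace (N : VonNeumannAlgebra H) (τ : (H →L[ℂ] H) → ℂ) : Prop where
  add : ∀ x ∈ N, ∀ y ∈ N, τ (x + y) = τ x + τ y
  smul : ∀ c : ℂ, ∀ x ∈ N, τ (c • x) = c * τ x
  unital : τ 1 = 1
  positive : ∀ x ∈ N, x.IsPositive → 0 ≤ τ x
  tracial : ∀ x ∈ N, ∀ y ∈ N, τ (x * y) = τ (y * x)
  faithful : ∀ x ∈ N, τ (star x * x) = 0 → x = 0
  normal : ∀ (l : Filter (H →L[ℂ] H)), ∀ x ∈ N, (∀ᶠ y in l, y ∈ N ∧ ‖y‖ ≤ 1) →
    (∀ ξ η : H, Tendsto (fun y : H →L[ℂ] H => ⟪ξ, y η⟫_ℂ) l (𝓝 ⟪ξ, x η⟫_ℂ)) →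
    Tendsto τ l (𝓝 (τ x))

/-- `N` is a II₁ factor with trace `τ`: an infinite-dimensional von Neumann algebra with trivial
centre on which `τ` is a faithful normal tracial state. -/
structure IsII1Factor (N : VonNeumannAlgebra H) (τ : (H →L[ℂ] H) → ℂ) : Prop where
  isTrace : IsTrace N τ
  factor : ∀ z ∈ N, (∀ x ∈ N, z * x = x * z) → ∃ c : ℂ, z = c • (1 : H →L[ℂ] H)
  infinite : ¬ FiniteDimensional ℂ N.toStarSubalgebra

/-- The 2-norm `‖x‖₂ = τ(x⋆ x)^{1/2}`. -/
noncomputable def norm2 (τ : (H →L[ℂ] H) → ℂ) (x : H →L[ℂ] H) : ℝ :=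
  √(τ (star x * x)).re

/-- `ℓ^∞(I, N)`: the norm-bounded families of elements of `N`. -/
def Bdd (I : Type u) (N : VonNeumannAlgebra H) : Type u :=
  {x : I → (H →L[ℂ] H) // (∀ i, x i ∈ N) ∧ ∃ C : ℝ, ∀ i, ‖x i‖ ≤ C}

section Ops

variable {I : Type u} {N : VonNeumannAlgebra H}

/-- Pointwise sum. -/
noncomputable def Bdd.add (x y : Bdd I N) : Bdd I N :=
  ⟨fun i => x.1 i + y.1 i, by
    obtain ⟨hx, C, hC⟩ := x.2
    obtain ⟨hy, D, hD⟩ := y.2
    exact ⟨fun i => add_mem (hx i) (hy i), C + D, fun i =>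
      (norm_add_le _ _).trans (add_le_add (hC i) (hD i))⟩⟩

/-- Pointwise product. -/
noncomputable def Bdd.mul (x y : Bdd I N) : Bdd I N :=
  ⟨fun i => x.1 i * y.1 i, by
    obtain ⟨hx, C, hC⟩ := x.2
    obtain ⟨hy, D, hD⟩ := y.2
    exact ⟨fun i => mul_mem (hx i) (hy i), C * D, fun i => (norm_mul_le _ _).trans
      (mul_le_mul (hC i) (hD i) (norm_nonneg _) ((norm_nonneg _).trans (hC i)))⟩⟩

/-- Pointwise scalar multiple. -/
noncomputable def Bdd.smul (c : ℂ) (x : Bdd I N) : Bdd I N :=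
  ⟨fun i => c • x.1 i, by
    obtain ⟨hx, C, hC⟩ := x.2
    exact ⟨fun i => N.toStarSubalgebra.smul_mem (hx i) c, ‖c‖ * C, fun i =>
      (norm_smul_le _ _).trans (mul_le_mul_of_nonneg_left (hC i) (norm_nonneg _))⟩⟩

/-- Pointwise adjoint. -/
noncomputable def Bdd.star (x : Bdd I N) : Bdd I N :=
  ⟨fun i => Star.star (x.1 i), by
    obtain ⟨hx, C, hC⟩ := x.2
    exact ⟨fun i => star_mem (hx i), C, fun i => by simpa using hC i⟩⟩

end Ops

/-- The properties of a size function `ν` on `N` (the operator norm, or the 2-norm of a trace)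
that make the `ν`-null families a ⋆-closed two-sided ideal of `ℓ^∞(I, N)`. -/
structure IsGauge (N : VonNeumannAlgebra H) (ν : (H →L[ℂ] H) → ℝ) : Prop where
  nonneg : ∀ x, 0 ≤ ν x
  zero : ν 0 = 0
  add : ∀ x ∈ N, ∀ y ∈ N, ν (x + y) ≤ 2 * (ν x + ν y)
  mul_left : ∀ x ∈ N, ∀ y ∈ N, ν (x * y) ≤ ‖x‖ * ν y
  star : ∀ x ∈ N, ν (star x) = ν x

section Gauge

variable {N : VonNeumannAlgebra H} {ν : (H →L[ℂ] H) → ℝ} {I : Type u}

theorem IsGauge.mul_right (h : IsGauge N ν) {x y : H →L[ℂ] H} (hx : x ∈ N) (hy : y ∈ N) :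
    ν (x * y) ≤ ‖y‖ * ν x := by
  rw [← h.star _ (mul_mem hx hy), star_mul]
  simpa [h.star x hx] using h.mul_left _ (star_mem hy) _ (star_mem hx)

theorem IsGauge.smul (h : IsGauge N ν) (c : ℂ) {x : H →L[ℂ] H} (hx : x ∈ N) :
    ν (c • x) ≤ ‖c‖ * ν x := by
  have h1 := h.mul_left (c • 1) (N.toStarSubalgebra.smul_mem (one_mem N) c) x hx
  rw [smul_mul_assoc, one_mul, norm_smul] at h1
  exact h1.trans (mul_le_mul_of_nonneg_right
    (mul_le_of_le_one_right (norm_nonneg _) ContinuousLinearMap.norm_id_le) (h.nonneg x))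

theorem IsGauge.null_add (h : IsGauge N ν) (U : Ultrafilter I) {x y : I → H →L[ℂ] H}
    (hxN : ∀ i, x i ∈ N) (hyN : ∀ i, y i ∈ N)
    (hx : Tendsto (fun i => ν (x i)) U (𝓝 0)) (hy : Tendsto (fun i => ν (y i)) U (𝓝 0)) :
    Tendsto (fun i => ν (x i + y i)) U (𝓝 0) := by
  refine squeeze_zero (fun i => h.nonneg _) (fun i => h.add _ (hxN i) _ (hyN i)) ?_
  simpa using (hx.add hy).const_mul 2

theorem IsGauge.null_of_le (h : IsGauge N ν) (U : Ultrafilter I) {x y : I → H →L[ℂ] H} (C : ℝ)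
    (hle : ∀ i, ν (y i) ≤ C * ν (x i)) (hx : Tendsto (fun i => ν (x i)) U (𝓝 0)) :
    Tendsto (fun i => ν (y i)) U (𝓝 0) :=
  squeeze_zero (fun _ => h.nonneg _) hle (by simpa using hx.const_mul C)

/-- The equivalence relation `x ∼ y ↔ lim_U ν(x_i - y_i) = 0` on `ℓ^∞(I, N)`. -/
def nullSetoid (h : IsGauge N ν) (U : Ultrafilter I) : Setoid (Bdd I N) where
  r x y := Tendsto (fun i => ν (x.1 i - y.1 i)) U (𝓝 0)
  iseqv := by
    refine ⟨fun x => by simp [h.zero], fun {x y} hxy => ?_, fun {x y z} hxy hyz => ?_⟩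
    · refine h.null_of_le U 1 (fun i => ?_) hxy
      simpa using h.smul (-1) (sub_mem (x.2.1 i) (y.2.1 i))
    · simpa using h.null_add U (fun i => sub_mem (x.2.1 i) (y.2.1 i))
        (fun i => sub_mem (y.2.1 i) (z.2.1 i)) hxy hyz

/-- The quotient of `ℓ^∞(I, N)` by the ideal `{(x_i) : lim_U ν(x_i) = 0}`. -/
def Ultrapower (h : IsGauge N ν) (U : Ultrafilter I) : Type u :=
  Quotient (nullSetoid h U)

/-- The class of a bounded family in the quotient. -/
def Ultrapower.mk (h : IsGauge N ν) (U : Ultrafilter I) (x : Bdd I N) : Ultrapower h U :=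
  Quotient.mk (nullSetoid h U) x

/-- The addition of the quotient, induced by the pointwise sum. -/
noncomputable instance instAdd (h : IsGauge N ν) (U : Ultrafilter I) : Add (Ultrapower h U) where
  add := Quotient.map₂ (sa := nullSetoid h U) (sb := nullSetoid h U) (sc := nullSetoid h U)
    Bdd.add fun w x h1 y z h2 => by
      have := h.null_add U (fun i => sub_mem (w.2.1 i) (x.2.1 i))
        (fun i => sub_mem (y.2.1 i) (z.2.1 i)) h1 h2
      exact this.congr fun i => congrArg ν (add_sub_add_comm _ _ _ _).symm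

/-- The multiplication of the quotient, induced by the pointwise product. -/
noncomputable instance instMul (h : IsGauge N ν) (U : Ultrafilter I) : Mul (Ultrapower h U) where
  mul := Quotient.map₂ (sa := nullSetoid h U) (sb := nullSetoid h U) (sc := nullSetoid h U)
    Bdd.mul fun w x h1 y z h2 => by
      obtain ⟨C, hC⟩ := y.2.2
      obtain ⟨D, hD⟩ := x.2.2
      have h3 := h.null_of_le U C (fun i =>
        (h.mul_right (sub_mem (w.2.1 i) (x.2.1 i)) (y.2.1 i)).trans
          (mul_le_mul_of_nonneg_right (hC i) (h.nonneg _))) h1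
      have h4 := h.null_of_le U D (fun i =>
        (h.mul_left _ (x.2.1 i) _ (sub_mem (y.2.1 i) (z.2.1 i))).trans
          (mul_le_mul_of_nonneg_right (hD i) (h.nonneg _))) h2
      have := h.null_add U (fun i => mul_mem (sub_mem (w.2.1 i) (x.2.1 i)) (y.2.1 i))
        (fun i => mul_mem (x.2.1 i) (sub_mem (y.2.1 i) (z.2.1 i))) h3 h4
      refine this.congr fun i => congrArg ν ?_
      show _ = w.1 i * y.1 i - x.1 i * z.1 i
      rw [sub_mul, mul_sub, sub_add_sub_cancel]

/-- The scalar multiplication of the quotient, induced by the pointwise one. -/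
noncomputable instance instSMul (h : IsGauge N ν) (U : Ultrafilter I) :
    SMul ℂ (Ultrapower h U) where
  smul c := Quotient.map (sa := nullSetoid h U) (sb := nullSetoid h U) (Bdd.smul c)
    fun x y hxy => h.null_of_le U ‖c‖ (fun i => by
      have := h.smul c (sub_mem (x.2.1 i) (y.2.1 i))
      rwa [smul_sub] at this) hxy

/-- The involution of the quotient, induced by the pointwise adjoint. -/
noncomputable instance instStar (h : IsGauge N ν) (U : Ultrafilter I) : Star (Ultrapower h U) where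
  star := Quotient.map (sa := nullSetoid h U) (sb := nullSetoid h U) Bdd.star
    fun x y hxy => h.null_of_le U 1 (fun i => by
      rw [one_mul, ← h.star _ (sub_mem (x.2.1 i) (y.2.1 i)), star_sub]
      exact le_rfl) hxy

end Gauge

theorem isGauge_norm (N : VonNeumannAlgebra H) : IsGauge N (fun x => ‖x‖) where
  nonneg _ := norm_nonneg _
  zero := norm_zero
  add x _ y _ := (norm_add_le x y).trans (by nlinarith [norm_nonneg x, norm_nonneg y])
  mul_left x _ y _ := norm_mul_le x y
  star x _ := norm_star x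

theorem IsTrace.re_nonneg {N : VonNeumannAlgebra H} {τ : (H →L[ℂ] H) → ℂ} (h : IsTrace N τ)
    {x : H →L[ℂ] H} (hx : x ∈ N) : 0 ≤ (τ (star x * x)).re :=
  (h.positive _ (mul_mem (star_mem hx) hx)
    ((ContinuousLinearMap.nonneg_iff_isPositive _).1 (star_mul_self_nonneg x))).1

theorem IsTrace.isGauge {N : VonNeumannAlgebra H} {τ : (H →L[ℂ] H) → ℂ} (h : IsTrace N τ) :
    IsGauge N (norm2 τ) where
  nonneg _ := Real.sqrt_nonneg _
  zero := by
    have h0 := h.smul 0 0 (zero_mem N)
    rw [zero_smul, zero_mul] at h0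
    simp [norm2, h0]
  add x hx y hy := by
    have hm : ∀ z ∈ N, star z * z ∈ N := fun z hz => mul_mem (star_mem hz) hz
    have h1 := h.re_nonneg hx
    have h2 := h.re_nonneg hy
    have h3 := h.re_nonneg (sub_mem hx hy)
    have h4 : star (x + y) * (x + y) + star (x - y) * (x - y) =
        (star x * x + star x * x) + (star y * y + star y * y) := by
      simp only [star_add, star_sub]; noncomm_ring
    have h5 := congrArg (fun z => (τ z).re) h4
    simp only [h.add _ (hm _ (add_mem hx hy)) _ (hm _ (sub_mem hx hy)),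
      h.add _ (add_mem (hm x hx) (hm x hx)) _ (add_mem (hm y hy) (hm y hy)),
      h.add _ (hm x hx) _ (hm x hx), h.add _ (hm y hy) _ (hm y hy), Complex.add_re] at h5
    have h6 := Real.sq_sqrt h1
    have h7 := Real.sq_sqrt h2
    have h8 := Real.sqrt_nonneg (τ (star x * x)).re
    have h9 := Real.sqrt_nonneg (τ (star y * y)).re
    unfold norm2
    refine Real.sqrt_le_iff.2 ⟨by positivity, ?_⟩
    nlinarith [mul_nonneg h8 h9]
  mul_left x hx y hy := by
    have h1 : star y * (star x * x) * y ≤ ‖star x * x‖ • (star y * y) :=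
      CStarAlgebra.star_left_conjugate_le_norm_smul
    rw [← Complex.coe_smul] at h1
    have hm1 : star y * (star x * x) * y ∈ N :=
      mul_mem (mul_mem (star_mem hy) (mul_mem (star_mem hx) hx)) hy
    have hm2 : ((‖star x * x‖ : ℝ) : ℂ) • (star y * y) - star y * (star x * x) * y ∈ N :=
      sub_mem (N.toStarSubalgebra.smul_mem (mul_mem (star_mem hy) hy) _) hm1
    have h2 := (h.positive _ hm2
      ((ContinuousLinearMap.nonneg_iff_isPositive _).1 (sub_nonneg.2 h1))).1
    have h5 := congrArg Complex.re (h.add _ hm2 _ hm1)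
    rw [sub_add_cancel, h.smul _ _ (mul_mem (star_mem hy) hy), Complex.add_re,
      Complex.re_ofReal_mul] at h5
    have h6 : ‖star x * x‖ = ‖x‖ * ‖x‖ := CStarRing.norm_star_mul_self
    have h3 : star (x * y) * (x * y) = star y * (star x * x) * y := by
      simp only [star_mul, mul_assoc]
    have h4 := Real.sq_sqrt (h.re_nonneg hy)
    unfold norm2
    refine Real.sqrt_le_iff.2 ⟨by positivity, ?_⟩
    rw [h3, mul_pow, h4, sq, ← h6, h5]
    exact le_add_of_nonneg_left h2
  star x hx := by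
    unfold norm2
    rw [star_star, h.tracial _ hx _ (star_mem hx)]

variable {K : Type} [NormedAddCommGroup K] [InnerProductSpace ℂ K] [CompleteSpace K]

/-- Elementary equivalence as tracial von Neumann algebras: for some nonprincipal ultrafilters the
tracial ultrapowers `N^U = ℓ^∞(I, N) / {(x_i) : lim_U ‖x_i‖₂ = 0}` and `M^V` are isomorphic by a
⋆-isomorphism that preserves the limit traces. -/
def TracialEquiv {N : VonNeumannAlgebra H} {M : VonNeumannAlgebra K} {τ : (H →L[ℂ] H) → ℂ}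
    {σ : (K →L[ℂ] K) → ℂ} (hN : IsTrace N τ) (hM : IsTrace M σ) : Prop :=
  ∃ (I J : Type) (U : Ultrafilter I) (V : Ultrafilter J),
    (U : Filter I) ≤ cofinite ∧ (V : Filter J) ≤ cofinite ∧
    ∃ Φ : Ultrapower hN.isGauge U ≃⋆ₐ[ℂ] Ultrapower hM.isGauge V,
      ∀ (x : Bdd I N) (y : Bdd J M) (c : ℂ),
        Φ (Ultrapower.mk hN.isGauge U x) = Ultrapower.mk hM.isGauge V y →
        Tendsto (fun i => τ (x.1 i)) U (𝓝 c) → Tendsto (fun j => σ (y.1 j)) V (𝓝 c)

/-- Elementary equivalence as C⋆-algebras: for some ultrafilters the norm ultrapowers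
`N_U = ℓ^∞(I, N) / {(x_i) : lim_U ‖x_i‖ = 0}` and `M_V` are ⋆-isomorphic. -/
def CStarEquiv (N : VonNeumannAlgebra H) (M : VonNeumannAlgebra K) : Prop :=
  ∃ (I : Type u) (J : Type v) (U : Ultrafilter I) (V : Ultrafilter J),
    Nonempty (Ultrapower (isGauge_norm N) U ≃⋆ₐ[ℂ] Ultrapower (isGauge_norm M) V)

end Pool.Agent.MP_755d6b_an.H98
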