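import Pool.Agent.MP_755d6b_an.H98.Rigid

/-!
# Property Gamma
-/

namespace Pool.Agent.MP_755d6b_an.H98

open Filter Topology
open scoped ComplexOrder InnerProductSpace Classical

/-- Ordered products. -/
def prodR {R : Type*} [Monoid R] (f : ℕ → R) : ℕ → R
  | 0 => 1
  | n + 1 => f n * prodR f n

theorem prodR_succ' {R : Type*} [Monoid R] (f : ℕ → R) (n : ℕ) :
    prodR f (n + 1) = prodR (fun j => f (j + 1)) n * f 0 := by
  induction n with
  | zero => simp [prodR]
  | succ n ih => rw [prodR, ih, prodR, mul_assoc]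

theorem mul_prodR {R : Type*} [Monoid R] {f g : ℕ → R} {x : R} (h : ∀ j, x * f j = g j * x)
    (n : ℕ) : x * prodR f n = prodR g n * x := by
  induction n with
  | zero => simp [prodR]
  | succ n ih => rw [prodR, prodR, ← mul_assoc, h, mul_assoc, ih, mul_assoc]

theorem prodR_mem {R S : Type*} [Monoid R] [SetLike S R] [SubmonoidClass S R] {T : S} {f : ℕ → R}
    (h : ∀ j, f j ∈ T) (n : ℕ) : prodR f n ∈ T := by
  induction n with
  | zero => exact one_mem T
  | succ n ih => exact mul_mem (h n) ih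

theorem norm_le_one_of_unitary {H : Type} [NormedAddCommGroup H] [InnerProductSpace ℂ H]
    [CompleteSpace H] {u : H →L[ℂ] H} (h : u ∈ unitary (H →L[ℂ] H)) : ‖u‖ ≤ 1 := by
  have h1 : ‖star u * u‖ = ‖u‖ * ‖u‖ := CStarRing.norm_star_mul_self
  rw [h.1] at h1
  have h2 : ‖(1 : H →L[ℂ] H)‖ ≤ 1 := ContinuousLinearMap.norm_id_le
  nlinarith [norm_nonneg u]

variable {G : Type} [Group G] (D : GData G)

/-- The elementary unitaries `α + iβ λ(e_j)`. -/
noncomputable def GData.v (α β : ℝ) (j : ℕ) : L2 G →L[ℂ] L2 G :=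
  (α : ℂ) • 1 + ((β : ℂ) * Complex.I) • lam (D.e j)

theorem GData.e_inv (j : ℕ) : (D.e j)⁻¹ = D.e j := inv_eq_of_mul_eq_one_right (D.e_sq j)

theorem GData.v_mem (α β : ℝ) (j : ℕ) : D.v α β j ∈ LG G :=
  add_mem (smul_mem_vN _ (one_mem _)) (smul_mem_vN _ (lam_mem _))

theorem GData.v_unitary {α β : ℝ} (h : α * α + β * β = 1) (j : ℕ) :
    D.v α β j ∈ unitary (L2 G →L[ℂ] L2 G) := by
  have h1 : lam (D.e j) * lam (D.e j) = 1 := by rw [← lam_mul, D.e_sq, lam_one]
  have h2 : star (D.v α β j) = (α : ℂ) • 1 + (-((β : ℂ) * Complex.I)) • lam (D.e j) := by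
    rw [GData.v, star_add, star_smul, star_smul, star_one, star_lam, D.e_inv]
    simp
  have h3 : (α : ℂ) * α + β * β = 1 := by exact_mod_cast h
  have h4 : ∀ c : ℂ, c * c = -(β * β) →
      ((α : ℂ) • 1 + (-c) • lam (D.e j)) * ((α : ℂ) • 1 + c • lam (D.e j)) = 1 := fun c hc => by
    simp only [add_mul, mul_add, smul_mul_smul_comm, h1, one_mul, mul_one]
    have h5 : (α : ℂ) * α = 1 + c * c := by rw [hc, ← h3]; ring
    rw [h5]
    module
  have h5 : (β : ℂ) * Complex.I * (β * Complex.I) = -(β * β) := by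
    linear_combination (β * β : ℂ) * Complex.I_mul_I
  rw [Unitary.mem_iff, h2]
  refine ⟨h4 _ h5, ?_⟩
  have h6 := h4 (-((β : ℂ) * Complex.I)) (by rw [neg_mul_neg, h5])
  rwa [neg_neg] at h6

theorem GData.lam_mul_v (α β : ℝ) {g : G} {i j : ℕ} (h : g * D.e i = D.e j * g) :
    lam g * D.v α β i = D.v α β j * lam g := by
  simp only [GData.v, add_mul, mul_add, smul_mul_assoc, mul_smul_comm, one_mul, mul_one,
    ← lam_mul, h]

theorem GData.norm_v_sub_one {α β : ℝ} (h : α * α + β * β = 1) (hα : 0 ≤ α) (hβ : 0 ≤ β)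
    (j : ℕ) : ‖D.v α β j - 1‖ ≤ 2 * β := by
  have h1 : D.v α β j - 1 = ((α - 1 : ℝ) : ℂ) • 1 + ((β : ℂ) * Complex.I) • lam (D.e j) := by
    rw [GData.v]; push_cast; module
  have h2 : ‖(1 : L2 G →L[ℂ] L2 G)‖ ≤ 1 := ContinuousLinearMap.norm_id_le
  have h3 := opNorm_lam_le (D.e j)
  have h4 : α ≤ 1 := by nlinarith
  have h5 : 1 - α ≤ β := by nlinarith
  rw [h1]
  refine (norm_add_le _ _).trans ?_
  rw [norm_smul, norm_smul, norm_mul, Complex.norm_I, Complex.norm_real, Complex.norm_real,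
    Real.norm_eq_abs, Real.norm_eq_abs, abs_of_nonneg hβ, abs_sub_comm, abs_of_nonneg (by linarith)]
  nlinarith [mul_le_mul_of_nonneg_left h2 (show 0 ≤ 1 - α by linarith),
    mul_le_mul_of_nonneg_left h3 hβ]

theorem GData.trace_prod (α β : ℝ) (n : ℕ) : prodR (D.v α β) n (dl 1) 1 = (α : ℂ) ^ n ∧
    ∀ j, n ≤ j → ∀ g, D.c j g → prodR (D.v α β) n (dl 1) g = 0 := by
  have hv : ∀ j (ξ : L2 G) g, D.v α β j ξ g = α * ξ g + β * Complex.I * ξ (D.e j * g) :=
    fun j ξ g => by
      show α * ξ g + β * Complex.I * ξ ((D.e j)⁻¹ * g) = _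
      rw [D.e_inv]
  induction n with
  | zero =>
    refine ⟨by simp [prodR, dl_apply], fun j _ g hg => ?_⟩
    rw [prodR, one_apply_eq_self, dl_apply, if_neg]
    rintro rfl
    exact D.c_one j hg
  | succ n ih =>
    simp only [prodR, mul_apply_eq_comp, hv]
    refine ⟨?_, fun j hj g hg => ?_⟩
    · rw [ih.1, ih.2 n le_rfl _ (by rw [mul_one]; exact D.c_self n)]
      ring
    · rw [ih.2 j (by omega) g hg, ih.2 j (by omega) _ (D.c_mul n j g (by omega) hg)]
      ring

theorem GData.exists_unitary {β : ℝ} (h0 : 0 < β) (h1 : β ≤ 1) :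
    ∃ u ∈ LG G, u ∈ unitary (L2 G →L[ℂ] L2 G) ∧ ‖⟪dl 1, u (dl 1)⟫_ℂ‖ ≤ 1 / 2 ∧
      ∀ g ∈ (D.A : Set G) ∪ Set.range D.s, ‖u * lam g - lam g * u‖ ≤ 4 * β := by
  have h2 : 0 ≤ 1 - β * β := by nlinarith
  have h3 := Real.mul_self_sqrt h2
  have h4 := Real.sqrt_nonneg (1 - β * β)
  generalize √(1 - β * β) = α at h3 h4
  have h5 : α * α + β * β = 1 := by linarith
  have h6 : α < 1 := by nlinarith
  obtain ⟨n, hn⟩ := exists_pow_lt_of_lt_one (show (0 : ℝ) < 1 / 2 by norm_num) h6
  have hc : ∀ g, (∀ j, g * D.e j = D.e j * g) →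
      ‖prodR (D.v α β) n * lam g - lam g * prodR (D.v α β) n‖ ≤ 4 * β := fun g hg => by
    rw [mul_prodR fun j => D.lam_mul_v α β (hg j), sub_self, norm_zero]
    positivity
  refine ⟨prodR (D.v α β) n, prodR_mem (D.v_mem α β) n, prodR_mem (D.v_unitary h5) n, ?_, ?_⟩
  · rw [inner_dl, (D.trace_prod α β n).1, norm_pow, Complex.norm_real, Real.norm_eq_abs,
      abs_of_nonneg h4]
    exact hn.le
  · rintro g (hg | ⟨i, rfl⟩)
    · exact hc g fun j => D.comm _ hg _ (D.e_mem j)
    · have hfix : ∀ g, (∀ x ∈ D.A, g⁻¹ * x * g = x) → ∀ j, g * D.e j = D.e j * g :=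
        fun g hg j => by
          conv_lhs => rw [← hg _ (D.e_mem j)]
          group
      fin_cases i
      · exact hc _ (hfix _ D.fix0)
      · exact hc _ (hfix _ D.fix1)
      · show ‖prodR (D.v α β) n * lam (D.s 2) - lam (D.s 2) * prodR (D.v α β) n‖ ≤ _
        rw [mul_prodR (g := fun j => D.v α β (j + 1)) fun j => D.lam_mul_v α β (D.e_shift j),
          ← sub_mul]
        refine ((norm_mul_le _ _).trans
          (mul_le_of_le_one_right (norm_nonneg _) (opNorm_lam_le _))).trans ?_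
        have h7 : D.v α β n * prodR (D.v α β) n = _ := prodR_succ' (D.v α β) n
        have h8 : prodR (D.v α β) n - prodR (fun j => D.v α β (j + 1)) n =
            prodR (fun j => D.v α β (j + 1)) n * (D.v α β 0 - 1) -
              (D.v α β n - 1) * prodR (D.v α β) n := by
          rw [mul_sub, sub_mul, h7, mul_one, one_mul]; abel
        have h9 := norm_le_one_of_unitary (prodR_mem (D.v_unitary h5) n)
        have h10 := norm_le_one_of_unitary
          (prodR_mem (f := fun j => D.v α β (j + 1)) (fun j => D.v_unitary h5 _) n)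
        have h11 := (norm_mul_le (prodR (fun j => D.v α β (j + 1)) n) (D.v α β 0 - 1)).trans
          (mul_le_of_le_one_left (norm_nonneg _) h10)
        have h12 := (norm_mul_le (D.v α β n - 1) (prodR (D.v α β) n)).trans
          (mul_le_of_le_one_right (norm_nonneg _) h9)
        rw [h8]
        refine (norm_sub_le _ _).trans ?_
        linarith [D.norm_v_sub_one h5 h4 h0.le 0, D.norm_v_sub_one h5 h4 h0.le n]

include D in
theorem GData.gam_LG : Gam (LG G) (dl (1 : G)) := by
  choose u hu1 hu2 hu3 hu4 using fun k : ℕ => D.exists_unitary (β := 1 / ((k : ℝ) + 1))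
    Nat.one_div_pos_of_nat (by
      rw [div_le_one (by positivity)]
      linarith [(Nat.cast_nonneg k : (0 : ℝ) ≤ k)])
  refine ⟨u, fun k => ⟨hu1 k, (hu2 k).1, (hu2 k).2, hu3 k⟩, fun x hx => ?_⟩
  let Z : Submodule ℂ (L2 G →L[ℂ] L2 G) :=
    { carrier := {y | y ∈ LG G ∧ Tendsto (fun k => u k * y - y * u k) atTop (𝓝 0)}
      add_mem' := fun {a b} ha hb => ⟨add_mem ha.1 hb.1, by
        have := ha.2.add hb.2
        rw [add_zero] at this
        exact this.congr fun k => by noncomm_ring⟩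
      zero_mem' := ⟨zero_mem _, by simp⟩
      smul_mem' := fun c a ha => ⟨smul_mem_vN c ha.1, by
        have := ha.2.const_smul c
        rw [smul_zero] at this
        exact this.congr fun k => by rw [smul_sub, mul_smul_comm, smul_mul_assoc]⟩ }
  have hZ : ∀ g, lam g ∈ Z := fun g => by
    refine ⟨lam_mem g, ?_⟩
    have hg : g ∈ Subgroup.closure ((D.A : Set G) ∪ Set.range D.s) := by
      rw [D.gen]; exact Subgroup.mem_top g
    induction hg using Subgroup.closure_induction with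
    | mem g hg =>
      refine squeeze_zero_norm (fun k => hu4 k g hg) ?_
      simpa using (tendsto_one_div_add_atTop_nhds_zero_nat (𝕜 := ℝ)).const_mul 4
    | one => simp [lam_one]
    | mul g h _ _ ih1 ih2 =>
      have := (ih1.mul_const (lam h)).add (ih2.const_mul (lam g))
      rw [zero_mul, mul_zero, add_zero] at this
      exact this.congr fun k => by rw [lam_mul]; noncomm_ring
    | inv g _ ih =>
      have := ((ih.const_mul (lam g⁻¹)).mul_const (lam g⁻¹)).neg
      rw [mul_zero, zero_mul, neg_zero] at this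
      refine this.congr fun k => ?_
      rw [mul_sub, sub_mul, ← mul_assoc, ← mul_assoc, lam_inv_mul, one_mul, mul_assoc _ (lam g),
        lam_mul_inv, mul_one, neg_sub]
  refine Metric.tendsto_nhds.2 fun ε hε => ?_
  obtain ⟨F, hF⟩ := (Metric.tendsto_nhds.1 (hasSum_dl (x (dl 1))) (ε / 4) (by positivity)).exists
  let y : L2 G →L[ℂ] L2 G := ∑ g ∈ F, x (dl 1) g • lam g
  have hy : y ∈ Z := Z.sum_mem fun g _ => Z.smul_mem _ (hZ g)
  have hy1 : ‖(x - y) (dl 1)‖ < ε / 4 := by
    rw [dist_comm, dist_eq_norm] at hF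
    simpa [y, lam_dl] using hF
  filter_upwards [Metric.tendsto_nhds.1 hy.2 (ε / 4) (by positivity)] with k hk
  rw [dist_zero_right] at hk
  rw [dist_zero_right, norm_norm]
  have h1 := isTV_LG.norm_comm_le (hu1 k) (norm_le_one_of_unitary (hu2 k)) (sub_mem hx hy.1)
  have h2 := (u k * y - y * u k).le_opNorm (dl 1)
  rw [norm_dl, mul_one] at h2
  have h3 : u k * x - x * u k = (u k * (x - y) - (x - y) * u k) + (u k * y - y * u k) := by
    noncomm_ring
  rw [h3, add_apply]
  refine (norm_add_le _ _).trans_lt ?_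
  linarith

end Pool.Agent.MP_755d6b_an.H98
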