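import Pool.Agent.MP_755d6b_an.H98.Gamma

/-!
# The group `(⊕_ℤ ℤ/2) ⋊ F₃`
-/

namespace Pool.Agent.MP_755d6b_an.H98

open FreeGroup hiding map_one map_mul map_inv
open SemidirectProduct

section Free

variable {α : Type*} [DecidableEq α]

theorem reduce_concat (y : α × Bool) : ∀ L : List (α × Bool), IsReduced L →
    reduce (L ++ [y]) = L ++ [y] ∨ L = reduce (L ++ [y]) ++ [(y.1, !y.2)]
  | [], _ => Or.inl rfl
  | [x], _ => by
    by_cases h : x.1 = y.1 ∧ x.2 = !y.2
    · right
      simp [h, Prod.ext_iff]
    · left
      simp [h]
  | x :: z :: L, hL => by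
    have h1 := isReduced_cons_cons.1 hL
    have h2 : ¬ (x.1 = z.1 ∧ x.2 = !z.2) := fun h => by
      have := h1.1 h.1
      rw [h.2] at this
      simp at this
    rw [List.cons_append, reduce.cons]
    rcases reduce_concat y (z :: L) h1.2 with h | h
    · left
      rw [h]
      simp only [List.cons_append, h2, if_false]
    · right
      generalize reduce (z :: L ++ [y]) = R at h
      cases R with
      | nil => rw [h]; rfl
      | cons a R =>
        have h3 : z = a := by
          simp only [List.cons_append, List.cons.injEq] at h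
          exact h.1
        subst h3
        simp only [h2, if_false]
        rw [h]
        rfl

theorem head_conj (i : α) {w : FreeGroup α} (hw : w ≠ 1) :
    w.toWord.head? = some (i, true) ∨ ((of i)⁻¹ * w * of i).toWord.head? = some (i, false) := by
  by_cases h : w.toWord.head? = some (i, true)
  · exact Or.inl h
  right
  have h0 : w.toWord ≠ [] := fun h0 => hw (toWord_eq_nil_iff.1 h0)
  have h1 : ((of i)⁻¹ * w).toWord = (i, false) :: w.toWord := by
    rw [toWord_mul, toWord_inv, toWord_of]
    have h2 : invRev [(i, true)] = [(i, false)] := by simp [invRev]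
    rw [h2, List.singleton_append, reduce.cons, reduce_toWord]
    generalize w.toWord = L at h h0
    cases L with
    | nil => exact absurd rfl h0
    | cons a L =>
      have h3 : ¬ (i = a.1 ∧ false = !a.2) := fun h3 => h (by
        simp only [List.head?_cons, Option.some.injEq]
        exact Prod.ext h3.1.symm (by simpa using h3.2))
      simp only [h3, if_false]
  rw [toWord_mul, toWord_of]
  have h2 := reduce_concat (i, true) _ (isReduced_toWord (x := (of i)⁻¹ * w))
  rw [h1] at h2 ⊢
  rcases h2 with h2 | h2
  · rw [h2]; rfl
  · generalize reduce ((i, false) :: w.toWord ++ [(i, true)]) = R at h2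
    cases R with
    | nil =>
      simp only [List.nil_append, List.cons.injEq] at h2
      exact absurd h2.2 h0
    | cons a R =>
      simp only [List.cons_append, List.cons.injEq] at h2
      rw [← h2.1]; rfl

end Free

/-- The lamp group. -/
abbrev Lamp : Type := Multiplicative (ℤ →₀ ZMod 2)

/-- The shift of the lamp group. -/
noncomputable def shift : MulAut Lamp :=
  AddEquiv.toMultiplicative (Finsupp.domCongr (Equiv.addRight (1 : ℤ)))

theorem shift_apply (x : Lamp) (k : ℤ) : (shift x).toAdd k = x.toAdd (k - 1) := by
  simp [shift, sub_eq_add_neg]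

theorem shift_pow_apply (n : ℕ) (x : Lamp) (k : ℤ) :
    ((shift ^ n) x).toAdd k = x.toAdd (k - n) := by
  induction n generalizing k with
  | zero => simp
  | succ n ih =>
    rw [pow_succ', MulAut.mul_apply, shift_apply, ih]
    congr 1
    push_cast
    ring

/-- The action of the free group. -/
noncomputable def act : FreeGroup (Fin 3) →* MulAut Lamp :=
  FreeGroup.lift fun i => if i = 2 then shift else 1

/-- The group. -/
abbrev GG : Type := Lamp ⋊[act] FreeGroup (Fin 3)

theorem eq_inl {x : GG} (hx : x ∈ (rightHom : GG →* FreeGroup (Fin 3)).ker) : x = inl x.left := by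
  have h1 : x.right = 1 := hx
  conv_lhs => rw [← inl_left_mul_inr_right x, h1, map_one, mul_one]

theorem conj_inl (w : FreeGroup (Fin 3)) (a : Lamp) :
    (inr w : GG)⁻¹ * inl a * inr w = inl ((act w)⁻¹ a) := by
  rw [inl_aut_inv, map_inv]

/-- The combinatorial data of the group. -/
noncomputable def gdata : GData GG where
  A := (rightHom : GG →* FreeGroup (Fin 3)).ker
  s i := inr (of i)
  normal x g := by
    simp only [MonoidHom.mem_ker, map_mul, map_inv]
    constructor
    · intro h
      calc rightHom x = rightHom g * ((rightHom g)⁻¹ * rightHom x * rightHom g) *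
          (rightHom g)⁻¹ := by group
        _ = 1 := by rw [h]; group
    · intro h
      rw [h]; group
  comm x hx y hy := by
    rw [eq_inl hx, eq_inl hy, ← map_mul, ← map_mul, mul_comm]
  fix0 x hx := by
    rw [eq_inl hx, conj_inl]
    simp [act]
  fix1 x hx := by
    rw [eq_inl hx, conj_inl]
    simp [act]
  lab x := x.right.toWord.head?
  para i x hx := head_conj i hx
  orbit x hx h1 := by
    intro hfin
    have h2 : x.left.toAdd ≠ 0 := fun h => h1 (by
      rw [eq_inl hx, show x.left = 1 from h, map_one])
    obtain ⟨k, hk⟩ := Finsupp.ne_iff.1 h2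
    have h3 := hfin.biUnion (t := fun y : GG => ((y.left.toAdd.support : Finset ℤ) : Set ℤ))
      fun y _ => Finset.finite_toSet _
    refine Set.infinite_range_of_injective (f := fun n : ℕ => k - n)
      (fun m n h => by simpa using h) (h3.subset ?_)
    rintro _ ⟨n, rfl⟩
    refine Set.mem_biUnion ⟨n, rfl⟩ ?_
    have h4 : act (of 2 ^ n) = shift ^ n := by simp [act]
    have h5 := shift_pow_apply n ((shift ^ n)⁻¹ x.left) k
    rw [MulAut.apply_inv_self] at h5
    show _ ∈ ((((inr (of 2) : GG) ^ n)⁻¹ * x * inr (of 2) ^ n).left.toAdd.support : Set ℤ)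
    rw [← map_pow, eq_inl hx, conj_inl, h4, left_inl, Finset.mem_coe, Finsupp.mem_support_iff, ← h5]
    exact hk
  e j := inl (Multiplicative.ofAdd (Finsupp.single (j : ℤ) 1))
  e_mem j := rightHom_inl _
  e_sq j := by
    rw [← map_mul, ← ofAdd_add, ← Finsupp.single_add, show (1 + 1 : ZMod 2) = 0 from rfl,
      Finsupp.single_zero, ofAdd_zero, map_one]
  e_shift j := by
    have h1 : act (of 2) (Multiplicative.ofAdd (Finsupp.single (j : ℤ) 1)) =
        Multiplicative.ofAdd (Finsupp.single ((j + 1 : ℕ) : ℤ) 1) := by
      simp [act, shift]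
    rw [← h1, inl_aut, map_inv, inv_mul_cancel_right]
  c j g := g.left.toAdd j ≠ 0
  c_one j := by simp
  c_self j := by simp
  c_mul i j g hij h := by
    have h1 : (i : ℤ) ≠ j := by exact_mod_cast hij
    simpa [Finsupp.single_apply, h1] using h
  gen := by
    rw [eq_top_iff]
    intro x _
    rw [← inl_left_mul_inr_right x]
    refine mul_mem (Subgroup.subset_closure (Or.inl (rightHom_inl _))) ?_
    induction x.right using FreeGroup.induction_on with
    | C1 => rw [map_one]; exact one_mem _
    | of i => exact Subgroup.subset_closure (Or.inr ⟨i, rfl⟩)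
    | inv_of i h => rw [map_inv]; exact inv_mem h
    | mul a b ha hb => rw [map_mul]; exact mul_mem ha hb

instance : Infinite GG :=
  Infinite.of_injective (inr : FreeGroup (Fin 3) →* GG) inr_injective

end Pool.Agent.MP_755d6b_an.H98
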