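import Pool.Agent.MP_755d6b_an.H98.UltraProps

/-!
# The iterated tracial ultrapower
-/

namespace Pool.Agent.MP_755d6b_an.H98

open Filter Topology
open scoped ComplexOrder InnerProductSpace

/-- The product of two ultrafilters on `ℕ`. -/
def prodU (U V : Ultrafilter ℕ) : Ultrafilter (ℕ × ℕ) :=
  V.bind fun j => U.map fun i => (i, j)

theorem eventually_prodU {U V : Ultrafilter ℕ} {p : ℕ × ℕ → Prop} :
    (∀ᶠ x in (prodU U V : Filter (ℕ × ℕ)), p x) ↔
      ∀ᶠ j in (V : Filter ℕ), ∀ᶠ i in (U : Filter ℕ), p (i, j) :=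
  Iff.rfl

theorem prodU_le_cofinite {U : Ultrafilter ℕ} (V : Ultrafilter ℕ) (hU : (U : Filter ℕ) ≤ cofinite) :
    (prodU U V : Filter (ℕ × ℕ)) ≤ cofinite := by
  intro s hs
  refine eventually_prodU.2 (Eventually.of_forall fun j => hU ?_)
  exact (tendsto_cofinite_of_injective j) hs
where
  tendsto_cofinite_of_injective (j : ℕ) :
      Tendsto (fun i : ℕ => (i, j)) cofinite cofinite :=
    Function.Injective.tendsto_cofinite fun _ _ h => congrArg Prod.fst h

theorem tendsto_prodU_iff {X : Type*} [PseudoMetricSpace X] {U V : Ultrafilter ℕ}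
    {f : ℕ × ℕ → X} {g : ℕ → X} (h : ∀ j, Tendsto (fun i => f (i, j)) U (𝓝 (g j))) (c : X) :
    Tendsto f (prodU U V) (𝓝 c) ↔ Tendsto g V (𝓝 c) := by
  rw [Metric.tendsto_nhds, Metric.tendsto_nhds]
  constructor
  · intro h1 ε hε
    filter_upwards [eventually_prodU.1 (h1 (ε / 2) (by positivity))] with j hj
    have h2 : dist (g j) c ≤ ε / 2 :=
      le_of_tendsto ((h j).dist tendsto_const_nhds) (hj.mono fun i hi => hi.le)
    linarith
  · intro h1 ε hε
    refine eventually_prodU.2 ((h1 ε hε).mono fun j hj => ?_)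
    exact ((h j).dist tendsto_const_nhds).eventually (gt_mem_nhds hj)

variable {H : Type} [NormedAddCommGroup H] [InnerProductSpace ℂ H] [CompleteSpace H]
  {N : VonNeumannAlgebra H} {Ω : H}
  {K : Type} [NormedAddCommGroup K] [InnerProductSpace ℂ K] [CompleteSpace K]
  {U : Ultrafilter ℕ} {M : VonNeumannAlgebra K} {Ω' : K} {π : BddS ℕ N →⋆ₐ[ℂ] (K →L[ℂ] K)}

/-- A column of a bounded double sequence. -/
def slice (x : BddS (ℕ × ℕ) N) (j : ℕ) : BddS ℕ N :=
  ⟨fun i => x.1 (i, j), fun _ => x.2.1 _, x.2.2.imp fun _ hC _ => hC _⟩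

/-- The map from double sequences in `N` to sequences in the ultrapower. -/
noncomputable def IsUltra.psi (hu : IsUltra N Ω U M Ω' π) (x : BddS (ℕ × ℕ) N) : BddS ℕ M :=
  ⟨fun j => π (slice x j), fun _ => hu.mem _,
    x.2.2.imp fun _ hC _ => hu.norm_le _ _ fun _ => hC _⟩

theorem IsUltra.psi_null (hu : IsUltra N Ω U M Ω' π) (V : Ultrafilter ℕ) (x y : BddS (ℕ × ℕ) N) :
    Tendsto (fun p => norm2 (vecState Ω) (x.1 p - y.1 p)) (prodU U V) (𝓝 0) ↔
      Tendsto (fun j => norm2 (vecState Ω') ((hu.psi x).1 j - (hu.psi y).1 j)) V (𝓝 0) := by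
  refine tendsto_prodU_iff (fun j => ?_) 0
  simp only [norm2_vecState]
  have h1 := hu.norm (slice x j - slice y j)
  rw [map_sub] at h1
  exact h1

theorem IsUltra.exists_iso (hu : IsUltra N Ω U M Ω' π) (h : IsTV N Ω) (V : Ultrafilter ℕ)
    (hV : (V : Filter ℕ) ≤ atTop) :
    ∃ Φ : Ultrapower h.isTrace.isGauge (prodU U V) ≃⋆ₐ[ℂ] Ultrapower hu.tv.isTrace.isGauge V,
      ∀ (x : BddS (ℕ × ℕ) N) (y : BddS ℕ M) (c : ℂ),
        Φ (mkS h.isTrace.isGauge (prodU U V) x) = mkS hu.tv.isTrace.isGauge V y →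
        Tendsto (fun p => vecState Ω (x.1 p)) (prodU U V) (𝓝 c) →
        Tendsto (fun j => vecState Ω' (y.1 j)) V (𝓝 c) := by
  let f : Ultrapower h.isTrace.isGauge (prodU U V) → Ultrapower hu.tv.isTrace.isGauge V :=
    Quotient.map (sa := nullSetoid h.isTrace.isGauge (prodU U V))
      (sb := nullSetoid hu.tv.isTrace.isGauge V)
      (fun x => ⟨(hu.psi ⟨x.1, x.2⟩).1, (hu.psi ⟨x.1, x.2⟩).2⟩)
      fun x y hxy => (hu.psi_null V ⟨x.1, x.2⟩ ⟨y.1, y.2⟩).1 hxy
  have hf : ∀ x, f (mkS h.isTrace.isGauge (prodU U V) x) =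
      mkS hu.tv.isTrace.isGauge V (hu.psi x) := fun x => rfl
  have hinj : Function.Injective f := fun X Y hXY => by
    obtain ⟨x, rfl⟩ := mk_surj _ _ X
    obtain ⟨y, rfl⟩ := mk_surj _ _ Y
    rw [hf, hf, mk_eq_iff] at hXY
    exact (mk_eq_iff _ _ _ _).2 ((hu.psi_null V x y).2 hXY)
  have hsurj : Function.Surjective f := fun Y => by
    obtain ⟨y, rfl⟩ := mk_surj _ _ Y
    obtain ⟨C, hC⟩ := y.2.2
    have hC0 : 0 < C + 1 := by linarith [(norm_nonneg _).trans (hC 0)]
    choose b hb1 hb2 using fun j : ℕ => hu.kaplansky (y.2.1 j) hC0 (by linarith [hC j])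
      (Nat.one_div_pos_of_nat (n := j))
    refine ⟨mkS _ _ ⟨fun p => (b p.2).1 p.1, fun p => (b p.2).2.1 p.1, 4 * (C + 1),
      fun p => hb1 p.2 p.1⟩, ?_⟩
    rw [hf, eq_comm, mk_eq_iff]
    simp only [norm2_vecState]
    exact squeeze_zero (fun _ => norm_nonneg _) hb2
      (tendsto_one_div_add_atTop_nhds_zero_nat.mono_left hV)
  have hmul : ∀ X Y, f (X * Y) = f X * f Y := fun X Y => by
    obtain ⟨x, rfl⟩ := mk_surj _ _ X
    obtain ⟨y, rfl⟩ := mk_surj _ _ Y
    rw [← mk_mul, hf, hf, hf, ← mk_mul]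
    congr 1
    exact Subtype.ext (funext fun j => map_mul π (slice x j) (slice y j))
  have hadd : ∀ X Y, f (X + Y) = f X + f Y := fun X Y => by
    obtain ⟨x, rfl⟩ := mk_surj _ _ X
    obtain ⟨y, rfl⟩ := mk_surj _ _ Y
    rw [← mk_add, hf, hf, hf, ← mk_add]
    congr 1
    exact Subtype.ext (funext fun j => map_add π (slice x j) (slice y j))
  have hstar : ∀ X, f (star X) = star (f X) := fun X => by
    obtain ⟨x, rfl⟩ := mk_surj _ _ X
    rw [← mk_star, hf, hf, ← mk_star]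
    congr 1
    exact Subtype.ext (funext fun j => map_star π (slice x j))
  have hsmul : ∀ (c : ℂ) X, f (c • X) = c • f X := fun c X => by
    obtain ⟨x, rfl⟩ := mk_surj _ _ X
    rw [← mk_smul, hf, hf, ← mk_smul]
    congr 1
    exact Subtype.ext (funext fun j => map_smul π c (slice x j))
  refine ⟨{ Equiv.ofBijective f ⟨hinj, hsurj⟩ with
    map_mul' := hmul
    map_add' := hadd
    map_star' := hstar
    map_smul' := hsmul }, fun x y c h1 h2 => ?_⟩
  · have h3 : f (mkS h.isTrace.isGauge (prodU U V) x) =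
        mkS hu.tv.isTrace.isGauge V y := h1
    rw [hf, eq_comm, mk_eq_iff] at h3
    simp only [norm2_vecState] at h3
    have h4 : Tendsto (fun j => vecState Ω' ((hu.psi x).1 j)) V (𝓝 c) :=
      (tendsto_prodU_iff (fun j => hu.trace (slice x j)) c).1 h2
    have h5 : Tendsto (fun j => vecState Ω' (y.1 j - (hu.psi x).1 j)) V (𝓝 0) := by
      refine squeeze_zero_norm (fun j => ?_) h3
      have h6 := norm_inner_le_norm (𝕜 := ℂ) Ω' ((y.1 j - (hu.psi x).1 j) Ω')
      rwa [hu.tv.norm_one, one_mul] at h6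
    simpa using h4.add h5

end Pool.Agent.MP_755d6b_an.H98
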