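import Pool.Agent.MP_755d6b_an.H98.Defs
import Pool.Agent.MP_755d6b_an.H98.CStar

/-!
# Von Neumann algebras with a separating tracial vector
-/

namespace Pool.Agent.MP_755d6b_an.H98

open Filter Topology
open scoped ComplexOrder InnerProductSpace

variable {H : Type} [NormedAddCommGroup H] [InnerProductSpace ℂ H] [CompleteSpace H]

theorem inner_star_apply (x : H →L[ℂ] H) (ξ η : H) : ⟪(star x) ξ, η⟫_ℂ = ⟪ξ, x η⟫_ℂ := by
  rw [ContinuousLinearMap.star_eq_adjoint, ContinuousLinearMap.adjoint_inner_left]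

theorem inner_apply_star (x : H →L[ℂ] H) (ξ η : H) : ⟪ξ, (star x) η⟫_ℂ = ⟪x ξ, η⟫_ℂ := by
  rw [ContinuousLinearMap.star_eq_adjoint, ContinuousLinearMap.adjoint_inner_right]

/-- The vector state of `Ω`. -/
noncomputable def vecState (Ω : H) : (H →L[ℂ] H) →ₗ[ℂ] ℂ where
  toFun x := ⟪Ω, x Ω⟫_ℂ
  map_add' x y := by simp
  map_smul' c x := by simp

omit [CompleteSpace H] in
theorem vecState_apply (Ω : H) (x : H →L[ℂ] H) : vecState Ω x = ⟪Ω, x Ω⟫_ℂ := rfl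

theorem vecState_star_mul (Ω : H) (x y : H →L[ℂ] H) :
    vecState Ω (star x * y) = ⟪x Ω, y Ω⟫_ℂ := by
  rw [vecState_apply, mul_apply_eq_comp, inner_apply_star]

theorem norm2_vecState (Ω : H) (x : H →L[ℂ] H) : norm2 (vecState Ω) x = ‖x Ω‖ := by
  rw [norm2, vecState_star_mul, inner_self_eq_norm_sq_to_K]
  norm_cast
  exact Real.sqrt_sq (norm_nonneg _)

/-- `Ω` is a separating tracial unit vector for `N`. -/
structure IsTV (N : VonNeumannAlgebra H) (Ω : H) : Prop where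
  norm_one : ‖Ω‖ = 1
  sep : ∀ x ∈ N, x Ω = 0 → x = 0
  tr : ∀ x ∈ N, ∀ y ∈ N, ⟪Ω, x (y Ω)⟫_ℂ = ⟪Ω, y (x Ω)⟫_ℂ

theorem smul_mem_vN {N : VonNeumannAlgebra H} (c : ℂ) {x : H →L[ℂ] H} (hx : x ∈ N) :
    c • x ∈ N :=
  N.toStarSubalgebra.smul_mem hx c

theorem mem_vN_of_commute {N : VonNeumannAlgebra H} {x e : H →L[ℂ] H} (hx : x ∈ N)
    (h : ∀ y, Commute x y → Commute e y) : e ∈ N := by
  rw [← N.commutant_commutant, VonNeumannAlgebra.mem_commutant_iff]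
  intro g hg
  rw [VonNeumannAlgebra.mem_commutant_iff] at hg
  exact (h g (hg x hx)).eq.symm

variable {N : VonNeumannAlgebra H} {Ω : H}

theorem IsTV.inner_self (h : IsTV N Ω) : ⟪Ω, Ω⟫_ℂ = 1 := by
  rw [inner_self_eq_norm_sq_to_K, h.norm_one]; simp

theorem IsTV.isTrace (h : IsTV N Ω) : IsTrace N (vecState Ω) where
  add x _ y _ := map_add _ x y
  smul c x _ := map_smul _ c x
  unital := by simpa [vecState_apply] using h.inner_self
  positive x _ hx := hx.inner_nonneg_right Ω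
  tracial x hx y hy := h.tr x hx y hy
  faithful x hx h0 := by
    rw [vecState_star_mul, inner_self_eq_zero] at h0
    exact h.sep x hx h0
  normal _ _ _ _ h2 := h2 Ω Ω

theorem IsTV.norm_star (h : IsTV N Ω) {x : H →L[ℂ] H} (hx : x ∈ N) : ‖(star x) Ω‖ = ‖x Ω‖ := by
  rw [← norm2_vecState, ← norm2_vecState]
  exact h.isTrace.isGauge.star x hx

theorem IsTV.norm_mul_right (h : IsTV N Ω) {x y : H →L[ℂ] H} (hx : x ∈ N) (hy : y ∈ N) :
    ‖x (y Ω)‖ ≤ ‖y‖ * ‖x Ω‖ := by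
  have := h.isTrace.isGauge.mul_right hx hy
  rwa [norm2_vecState, norm2_vecState] at this

theorem IsTV.norm_comm_le (h : IsTV N Ω) {u x : H →L[ℂ] H} (hu : u ∈ N) (hu1 : ‖u‖ ≤ 1)
    (hx : x ∈ N) : ‖(u * x - x * u) Ω‖ ≤ 2 * ‖x Ω‖ := by
  have h1 := h.norm_mul_right hx hu
  have h2 := u.le_opNorm (x Ω)
  have h3 : ‖u‖ * ‖x Ω‖ ≤ ‖x Ω‖ := mul_le_of_le_one_left (norm_nonneg _) hu1
  have h4 : ‖(u * x - x * u) Ω‖ ≤ ‖u (x Ω)‖ + ‖x (u Ω)‖ := norm_sub_le _ _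
  linarith

theorem IsTV.nontrivial (h : IsTV N Ω) : Nontrivial H :=
  ⟨⟨Ω, 0, fun h0 => by simpa [h0] using h.norm_one⟩⟩

omit [CompleteSpace H] in
theorem norm_sub_inner_smul_sq (hΩ : ‖Ω‖ = 1) (ξ : H) (c : ℂ) :
    ‖ξ - c • Ω‖ ^ 2 = ‖ξ‖ ^ 2 - ‖⟪Ω, ξ⟫_ℂ‖ ^ 2 + ‖c - ⟪Ω, ξ⟫_ℂ‖ ^ 2 := by
  rw [@norm_sub_sq ℂ, inner_smul_right, norm_smul, hΩ, ← inner_conj_symm ξ Ω]
  generalize ⟪Ω, ξ⟫_ℂ = a
  simp only [Complex.sq_norm, Complex.normSq_apply, mul_one, RCLike.re_to_complex, Complex.mul_re,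
    Complex.conj_re, Complex.conj_im, Complex.sub_re, Complex.sub_im]
  ring

/-- A central-looking vector gives a scalar operator. -/
theorem IsTV.scalar_of_le (h : IsTV N Ω) {z : H →L[ℂ] H} (hz : z ∈ N)
    (h0 : ‖z Ω‖ ^ 2 - ‖⟪Ω, z Ω⟫_ℂ‖ ^ 2 ≤ 0) : ∃ c : ℂ, z = c • (1 : H →L[ℂ] H) := by
  refine ⟨⟪Ω, z Ω⟫_ℂ, sub_eq_zero.1 (h.sep _ (sub_mem hz (smul_mem_vN _ (one_mem N))) ?_)⟩
  have h1 := norm_sub_inner_smul_sq h.norm_one (z Ω) ⟪Ω, z Ω⟫_ℂ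
  simp only [sub_self, norm_zero] at h1
  have h2 : ‖z Ω - ⟪Ω, z Ω⟫_ℂ • Ω‖ ^ 2 ≤ 0 := by linarith
  have h3 : ‖z Ω - ⟪Ω, z Ω⟫_ℂ • Ω‖ = 0 := by
    simpa using le_antisymm h2 (sq_nonneg _)
  simpa using h3

theorem apply_eq_zero_of_nonneg {x : H →L[ℂ] H} (hx : 0 ≤ x) {ξ : H} (h : ⟪ξ, x ξ⟫_ℂ = 0) :
    x ξ = 0 := by
  have h1 : CFC.sqrt x * CFC.sqrt x = x := CFC.sqrt_mul_sqrt_self x
  have h2 : star (CFC.sqrt x) = CFC.sqrt x := (CFC.sqrt_nonneg x).isSelfAdjoint.star_eq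
  have h3 : ⟪CFC.sqrt x ξ, CFC.sqrt x ξ⟫_ℂ = 0 := by
    rw [← inner_apply_star, h2, ← mul_apply_eq_comp, h1, h]
  rw [inner_self_eq_zero] at h3
  rw [← h1, mul_apply_eq_comp, h3, map_zero]

theorem IsTV.exists_proj_of_sa (h : IsTV N Ω) {k : H →L[ℂ] H} (hk : k ∈ N)
    (hsa : IsSelfAdjoint k) (h0 : ⟪Ω, k Ω⟫_ℂ = 0) (hne : k ≠ 0) :
    ∃ p ∈ N, IsSelfAdjoint p ∧ p * p = p ∧ p ≠ 0 ∧ p ≠ 1 ∧ ∀ y, Commute k y → Commute p y := by
  obtain ⟨p, h1, h2, h3, h4, h5⟩ := exists_proj_of_not_nonneg hsa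
    (fun hp => hne (h.sep k hk (apply_eq_zero_of_nonneg hp h0)))
    (fun hp => hne (neg_eq_zero.1 (h.sep _ (neg_mem hk) (apply_eq_zero_of_nonneg hp
      (by simp [h0])))))
  exact ⟨p, mem_vN_of_commute hk h5, h1, h2, h3, h4, h5⟩

/-- A unitary with trace of modulus less than one has a nontrivial projection in its
bicommutant. -/
theorem IsTV.exists_proj_of_unitary (h : IsTV N Ω) {u : H →L[ℂ] H} (hu : u ∈ N)
    (h1 : star u * u = 1) (h2 : u * star u = 1) (h3 : ‖⟪Ω, u Ω⟫_ℂ‖ < 1) :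
    ∃ p ∈ N, IsSelfAdjoint p ∧ p * p = p ∧ p ≠ 0 ∧ p ≠ 1 ∧ ∀ y, Commute u y → Commute p y := by
  set c := ⟪Ω, u Ω⟫_ℂ with hc
  set w := u - c • (1 : H →L[ℂ] H) with hw
  have hwN : w ∈ N := sub_mem hu (smul_mem_vN _ (one_mem N))
  have hw0 : ⟪Ω, w Ω⟫_ℂ = 0 := by
    simp [hw, hc, h.norm_one]
  have hw1 : ⟪Ω, (star w) Ω⟫_ℂ = 0 := by
    rw [inner_apply_star, ← inner_conj_symm, hw0, map_zero]
  have hwne : w ≠ 0 := by
    intro h0
    have h4 : u = c • 1 := sub_eq_zero.1 h0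
    have h5 : ⟪u Ω, u Ω⟫_ℂ = 1 := by
      rw [← vecState_star_mul, h1]; exact h.isTrace.unital
    rw [inner_self_eq_norm_sq_to_K, h4] at h5
    have h6 : ‖c‖ ^ 2 = 1 := by
      simp only [smul_apply, one_apply_eq_self, norm_smul, h.norm_one, mul_one] at h5
      have h7 : ((‖c‖ ^ 2 : ℝ) : ℂ) = 1 := by simpa using h5
      exact_mod_cast h7
    nlinarith [norm_nonneg c]
  have hcomm : ∀ y, Commute u y → Commute w y ∧ Commute (star w) y := by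
    intro y hy
    have h4 : Commute (star u) y := by
      have h5 : star u * y = star u * y * (u * star u) := by rw [h2, mul_one]
      have h6 : y * star u = (star u * u) * y * star u := by rw [h1, one_mul]
      show star u * y = y * star u
      rw [h5, h6]
      simp only [mul_assoc]
      rw [← mul_assoc y u, ← hy.eq, mul_assoc]
    refine ⟨hy.sub_left ((Commute.one_left y).smul_left c), ?_⟩
    rw [hw, star_sub, star_smul, star_one]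
    exact h4.sub_left ((Commute.one_left y).smul_left _)
  by_cases hk : w + star w = 0
  · have hk2 : Complex.I • (w - star w) ≠ 0 := by
      intro h0
      rw [smul_eq_zero] at h0
      rcases h0 with h0 | h0
      · exact Complex.I_ne_zero h0
      · apply hwne
        have : (2 : ℂ) • w = 0 := by
          rw [two_smul]
          calc w + w = (w + star w) + (w - star w) := by abel
            _ = 0 := by rw [hk, h0, add_zero]
        simpa using this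
    obtain ⟨p, hp, h4, h5, h6, h7, h8⟩ := h.exists_proj_of_sa
      (smul_mem_vN Complex.I (sub_mem hwN (star_mem hwN)))
      (by
        show star _ = _
        rw [star_smul, star_sub, star_star, Complex.star_def, Complex.conj_I, neg_smul,
          ← smul_neg, neg_sub])
      (by simp [hw0, hw1]) hk2
    exact ⟨p, hp, h4, h5, h6, h7, fun y hy =>
      h8 y (((hcomm y hy).1.sub_left (hcomm y hy).2).smul_left _)⟩
  · obtain ⟨p, hp, h4, h5, h6, h7, h8⟩ := h.exists_proj_of_sa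
      (add_mem hwN (star_mem hwN)) (IsSelfAdjoint.add_star_self w)
      (by simp [hw0, hw1]) hk
    exact ⟨p, hp, h4, h5, h6, h7, fun y hy => h8 y ((hcomm y hy).1.add_left (hcomm y hy).2)⟩

/-- The commutant of a set of operators and their adjoints. -/
noncomputable def vnComm (S : Set (H →L[ℂ] H)) : VonNeumannAlgebra H where
  toStarSubalgebra := StarSubalgebra.centralizer ℂ S
  centralizer_centralizer' := by simp

theorem mem_vnComm {S : Set (H →L[ℂ] H)} (hS : ∀ r ∈ S, star r ∈ S) {z : H →L[ℂ] H} :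
    z ∈ vnComm S ↔ ∀ r ∈ S, r * z = z * r := by
  show z ∈ StarSubalgebra.centralizer ℂ S ↔ _
  rw [StarSubalgebra.mem_centralizer_iff]
  exact ⟨fun h r hr => (h r hr).1, fun h r hr => ⟨h r hr, h _ (hS r hr)⟩⟩

/-- The commutant of a right action has the cyclic vector as a tracial vector. -/
theorem isTV_vnComm {S : Set (H →L[ℂ] H)} (hS : ∀ r ∈ S, star r ∈ S) (hΩ : ‖Ω‖ = 1)
    (htot : ∀ ξ : H, (∀ r ∈ S, ⟪ξ, r Ω⟫_ℂ = 0) → ξ = 0) (J : H → H)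
    (hJ : ∀ ξ η, ⟪J ξ, η⟫_ℂ = ⟪J η, ξ⟫_ℂ) (hJS : ∀ r ∈ S, (star r) Ω = J (r Ω)) :
    IsTV (vnComm S) Ω := by
  have hc : ∀ x ∈ vnComm S, ∀ r ∈ S, x (r Ω) = r (x Ω) := fun x hx r hr => by
    rw [← mul_apply_eq_comp, ← (mem_vnComm hS).1 hx r hr, mul_apply_eq_comp]
  have hst : ∀ x ∈ vnComm S, (star x) Ω = J (x Ω) := fun x hx => by
    refine sub_eq_zero.1 (htot _ fun r hr => ?_)
    rw [inner_sub_left, inner_star_apply, hc x hx r hr, ← inner_star_apply, hJS r hr, hJ, sub_self]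
  refine ⟨hΩ, fun x hx h0 => ?_, fun x hx y hy => ?_⟩
  · rw [← star_eq_zero]
    ext ξ
    refine htot _ fun r hr => ?_
    rw [inner_star_apply, hc x hx r hr, h0, map_zero, inner_zero_right]
  · rw [← inner_star_apply x Ω, ← inner_star_apply y Ω, hst x hx, hst y hy, hJ]

/-- An almost invariant vector of a unitary representation is close to an invariant one. -/
theorem exists_invariant_near {G : Type*} [Group G] (α : G → H →L[ℂ] H)
    (hmul : ∀ g h ξ, α (g * h) ξ = α g (α h ξ)) (hiso : ∀ g ξ, ‖α g ξ‖ = ‖ξ‖)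
    (hone : ∀ ξ, α 1 ξ = ξ) (ξ : H) (δ : ℝ) (hξ : ∀ g, ‖α g ξ - ξ‖ ≤ δ) :
    ∃ η : H, (∀ g, α g η = η) ∧ ‖η - ξ‖ ≤ δ := by
  let K : Set H := ⋂ g, Metric.closedBall (α g ξ) δ
  have hK : ∀ η, η ∈ K ↔ ∀ g, ‖η - α g ξ‖ ≤ δ := fun η => by
    simp [K, dist_eq_norm]
  have hne : K.Nonempty := ⟨ξ, (hK ξ).2 fun g => by rw [norm_sub_rev]; exact hξ g⟩
  have hcl : IsClosed K := isClosed_iInter fun g => Metric.isClosed_closedBall
  have hcv : Convex ℝ K := convex_iInter fun g => convex_closedBall _ _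
  have hinv : ∀ g, ∀ η ∈ K, α g η ∈ K := fun g η hη => (hK _).2 fun h => by
    have h1 : α h ξ = α g (α (g⁻¹ * h) ξ) := by rw [← hmul, mul_inv_cancel_left]
    rw [h1, ← map_sub, hiso]
    exact (hK η).1 hη _
  let : InnerProductSpace ℝ H := InnerProductSpace.rclikeToReal ℂ H
  obtain ⟨η, hη, hmin⟩ := exists_norm_eq_iInf_of_complete_convex hne hcl.isComplete hcv 0
  have hle : ∀ ζ ∈ K, ‖η‖ ≤ ‖ζ‖ := fun ζ hζ => by
    have h1 : ⨅ w : K, ‖(0 : H) - w‖ ≤ ‖(0 : H) - ζ‖ :=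
      ciInf_le (f := fun w : K => ‖(0 : H) - w‖) ⟨0, by rintro _ ⟨w, rfl⟩; exact norm_nonneg _⟩
        ⟨ζ, hζ⟩
    rw [← hmin] at h1
    simpa using h1
  refine ⟨η, fun g => ?_, by simpa [hone] using (hK η).1 hη 1⟩
  have h1 : (1 / 2 : ℝ) • α g η + (1 / 2 : ℝ) • η ∈ K :=
    hcv (hinv g η hη) hη (by norm_num) (by norm_num) (by norm_num)
  have h2 := hle _ h1
  rw [← smul_add, norm_smul] at h2
  have h3 := parallelogram_law_with_norm ℂ (α g η) η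
  rw [hiso] at h3
  have h4 : ‖(1 / 2 : ℝ)‖ = 1 / 2 := by norm_num
  rw [h4] at h2
  have h5 : ‖α g η - η‖ ^ 2 ≤ 0 := by nlinarith [norm_nonneg η]
  have h6 : ‖α g η - η‖ = 0 := by simpa using le_antisymm h5 (sq_nonneg _)
  exact sub_eq_zero.1 (norm_eq_zero.1 h6)

/-- A uniform form of factoriality. -/
def Gap (N : VonNeumannAlgebra H) (Ω : H) : Prop :=
  ∀ x ∈ N, ∃ u ∈ N, ‖u‖ ≤ 1 ∧ ‖x Ω‖ ^ 2 - ‖⟪Ω, x Ω⟫_ℂ‖ ^ 2 ≤ 4 * ‖(u * x - x * u) Ω‖ ^ 2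

/-- Property Gamma, in sequential form. -/
def Gam (N : VonNeumannAlgebra H) (Ω : H) : Prop :=
  ∃ u : ℕ → H →L[ℂ] H, (∀ k, u k ∈ N ∧ star (u k) * u k = 1 ∧ u k * star (u k) = 1 ∧
    ‖⟪Ω, u k Ω⟫_ℂ‖ ≤ 1 / 2) ∧
    ∀ x ∈ N, Tendsto (fun k => ‖(u k * x - x * u k) Ω‖) atTop (𝓝 0)

/-- Three contractions without nontrivial norm-almost-commuting projection. -/
def Rigid (N : VonNeumannAlgebra H) : Prop :=
  ∃ s : Fin 3 → H →L[ℂ] H, (∀ i, s i ∈ N ∧ ‖s i‖ ≤ 1) ∧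
    ∀ p ∈ N, IsSelfAdjoint p → p * p = p → (∀ i, ‖s i * p - p * s i‖ ≤ 1 / 100) → p = 0 ∨ p = 1

/-- Any three elements commute with a nontrivial projection. -/
def Soft (N : VonNeumannAlgebra H) : Prop :=
  ∀ s : Fin 3 → H →L[ℂ] H, (∀ i, s i ∈ N) →
    ∃ p ∈ N, IsSelfAdjoint p ∧ p * p = p ∧ p ≠ 0 ∧ p ≠ 1 ∧ ∀ i, s i * p = p * s i

theorem IsTV.factor (h : IsTV N Ω) (hg : Gap N Ω) :
    ∀ z ∈ N, (∀ x ∈ N, z * x = x * z) → ∃ c : ℂ, z = c • (1 : H →L[ℂ] H) := by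
  intro z hz hc
  obtain ⟨u, hu, -, h1⟩ := hg z hz
  rw [hc u hu, sub_self] at h1
  exact h.scalar_of_le hz (by simpa using h1)

end Pool.Agent.MP_755d6b_an.H98
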