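import Pool.Agent.MP_755d6b_an.H98.NonIso

/-!
# The tracial ultrapower as a von Neumann algebra on a Hilbert space
-/

namespace Pool.Agent.MP_755d6b_an.H98

open Filter Topology UniformSpace
open scoped ComplexOrder InnerProductSpace

variable {H : Type} [NormedAddCommGroup H] [InnerProductSpace ℂ H] [CompleteSpace H]
  {N : VonNeumannAlgebra H} {Ω : H}

theorem tendsto_limUnder_of_bdd {I : Type*} (U : Ultrafilter I) {f : I → ℂ} {C : ℝ}
    (hf : ∀ i, ‖f i‖ ≤ C) : Tendsto f U (𝓝 (limUnder U f)) := by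
  obtain ⟨x, -, hx⟩ := (isCompact_closedBall (0 : ℂ) C).ultrafilter_le_nhds (U.map f) (by
    rw [le_principal_iff, Ultrafilter.coe_map, mem_map]
    exact univ_mem' fun i => by simpa using hf i)
  exact tendsto_nhds_limUnder ⟨x, hx⟩

theorem tendsto_inner_lim (U : Ultrafilter ℕ) (Ω : H) (a b : BddS ℕ N) :
    Tendsto (fun i => ⟪a.1 i Ω, b.1 i Ω⟫_ℂ) U (𝓝 (limUnder U fun i => ⟪a.1 i Ω, b.1 i Ω⟫_ℂ)) := by
  obtain ⟨C, hC⟩ := a.2.2
  obtain ⟨D, hD⟩ := b.2.2
  refine tendsto_limUnder_of_bdd U (C := (C * ‖Ω‖) * (D * ‖Ω‖)) fun i => ?_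
  have h1 : ‖a.1 i Ω‖ ≤ C * ‖Ω‖ :=
    ((a.1 i).le_opNorm Ω).trans (mul_le_mul_of_nonneg_right (hC i) (norm_nonneg _))
  have h2 : ‖b.1 i Ω‖ ≤ D * ‖Ω‖ :=
    ((b.1 i).le_opNorm Ω).trans (mul_le_mul_of_nonneg_right (hD i) (norm_nonneg _))
  exact (norm_inner_le_norm _ _).trans
    (mul_le_mul h1 h2 (norm_nonneg _) ((norm_nonneg _).trans h1))

set_option linter.unusedVariables false in
/-- Bounded sequences with the semi-inner product given by the limit along `U`. -/
def Pre (h : IsTV N Ω) (U : Ultrafilter ℕ) : Type := BddS ℕ N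

variable (h : IsTV N Ω) (U : Ultrafilter ℕ)

noncomputable instance : AddCommGroup (Pre h U) := inferInstanceAs (AddCommGroup (BddS ℕ N))
noncomputable instance : Module ℂ (Pre h U) := inferInstanceAs (Module ℂ (BddS ℕ N))

/-- The identity map. -/
noncomputable def toPre : BddS ℕ N ≃ₗ[ℂ] Pre h U := LinearEquiv.refl ℂ _

/-- The semi-inner product. -/
noncomputable abbrev preCore : PreInnerProductSpace.Core ℂ (Pre h U) where
  inner a b := limUnder U fun i => ⟪((toPre h U).symm a).1 i Ω, ((toPre h U).symm b).1 i Ω⟫_ℂ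
  conj_inner_symm a b := by
    have h1 := tendsto_inner_lim U Ω ((toPre h U).symm a) ((toPre h U).symm b)
    have h2 := (Complex.continuous_conj.tendsto _).comp
      (tendsto_inner_lim U Ω ((toPre h U).symm b) ((toPre h U).symm a))
    refine tendsto_nhds_unique h2 (h1.congr fun i => ?_)
    simp
  re_inner_nonneg a := by
    have h2 := (Complex.continuous_re.tendsto _).comp
      (tendsto_inner_lim U Ω ((toPre h U).symm a) ((toPre h U).symm a))
    exact ge_of_tendsto' h2 fun i => inner_self_nonneg (𝕜 := ℂ)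
  add_left a b c := by
    have h1 := tendsto_inner_lim U Ω ((toPre h U).symm (a + b)) ((toPre h U).symm c)
    have h2 := (tendsto_inner_lim U Ω ((toPre h U).symm a) ((toPre h U).symm c)).add
      (tendsto_inner_lim U Ω ((toPre h U).symm b) ((toPre h U).symm c))
    refine tendsto_nhds_unique h1 (h2.congr fun i => ?_)
    simp
  smul_left a b r := by
    have h1 := tendsto_inner_lim U Ω ((toPre h U).symm (r • a)) ((toPre h U).symm b)
    have h2 := (tendsto_inner_lim U Ω ((toPre h U).symm a) ((toPre h U).symm b)).const_mul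
      (starRingEnd ℂ r)
    refine tendsto_nhds_unique h1 (h2.congr fun i => ?_)
    simp [mul_comm]

noncomputable instance : SeminormedAddCommGroup (Pre h U) :=
  InnerProductSpace.Core.toSeminormedAddCommGroup (c := preCore h U)

noncomputable instance : InnerProductSpace ℂ (Pre h U) :=
  InnerProductSpace.ofCore (preCore h U)

/-- The Hilbert space of the ultrapower. -/
abbrev UH : Type := Completion (Pre h U)

/-- The canonical map to the Hilbert space of the ultrapower. -/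
noncomputable def hat : BddS ℕ N →ₗ[ℂ] UH h U :=
  (Completion.toComplL : Pre h U →L[ℂ] UH h U).toLinearMap ∘ₗ (toPre h U).toLinearMap

theorem hat_apply (a : BddS ℕ N) : hat h U a = (toPre h U a : UH h U) := rfl

theorem tendsto_inner_hat (a b : BddS ℕ N) :
    Tendsto (fun i => ⟪a.1 i Ω, b.1 i Ω⟫_ℂ) U (𝓝 ⟪hat h U a, hat h U b⟫_ℂ) := by
  rw [hat_apply, hat_apply, Completion.inner_coe]
  exact tendsto_inner_lim U Ω a b

theorem tendsto_norm_hat (a : BddS ℕ N) :
    Tendsto (fun i => ‖a.1 i Ω‖) U (𝓝 ‖hat h U a‖) := by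
  have h1 := ((Real.continuous_sqrt.comp Complex.continuous_re).tendsto _).comp
    (tendsto_inner_hat h U a a)
  have h2 : ∀ {E : Type} [NormedAddCommGroup E] [InnerProductSpace ℂ E] (ξ : E),
      √(⟪ξ, ξ⟫_ℂ).re = ‖ξ‖ := fun ξ => (norm_eq_sqrt_re_inner (𝕜 := ℂ) ξ).symm
  simpa only [Function.comp_def, h2] using h1

theorem hat_dense : DenseRange (hat h U) :=
  Completion.denseRange_coe (α := Pre h U)

theorem hat_induction {p : UH h U → Prop} (hp : IsClosed {ξ | p ξ}) (ih : ∀ a, p (hat h U a))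
    (ξ : UH h U) : p ξ :=
  (hat_dense h U).induction_on ξ hp ih

theorem op_ext {S T : UH h U →L[ℂ] UH h U} (hST : ∀ a, S (hat h U a) = T (hat h U a)) : S = T := by
  ext ξ
  exact hat_induction h U (isClosed_eq S.continuous T.continuous) hST ξ

/-- Extension of a bounded map to the completion. -/
noncomputable def extOp (T : BddS ℕ N →ₗ[ℂ] BddS ℕ N)
    (hT : ∃ C : ℝ, ∀ b, ‖hat h U (T b)‖ ≤ C * ‖hat h U b‖) : UH h U →L[ℂ] UH h U :=
  (LinearMap.mkContinuousOfExistsBound
    ((toPre h U).toLinearMap ∘ₗ T ∘ₗ (toPre h U).symm.toLinearMap) (by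
      obtain ⟨C, hC⟩ := hT
      refine ⟨C, fun b => ?_⟩
      have := hC ((toPre h U).symm b)
      rwa [hat_apply, hat_apply, Completion.norm_coe, Completion.norm_coe] at this)).completion

theorem extOp_hat (T : BddS ℕ N →ₗ[ℂ] BddS ℕ N)
    (hT : ∃ C : ℝ, ∀ b, ‖hat h U (T b)‖ ≤ C * ‖hat h U b‖) (b : BddS ℕ N) :
    extOp h U T hT (hat h U b) = hat h U (T b) := by
  rw [extOp, hat_apply, ContinuousLinearMap.completion_apply_coe]
  rfl

theorem norm_hat_mul_left (a b : BddS ℕ N) {C : ℝ} (hC : ∀ i, ‖a.1 i‖ ≤ C) :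
    ‖hat h U (a * b)‖ ≤ C * ‖hat h U b‖ :=
  le_of_tendsto_of_tendsto' (tendsto_norm_hat h U (a * b)) ((tendsto_norm_hat h U b).const_mul C)
    fun i => ((a.1 i).le_opNorm _).trans (mul_le_mul_of_nonneg_right (hC i) (norm_nonneg _))

theorem norm_hat_mul_right (a b : BddS ℕ N) {C : ℝ} (hC : ∀ i, ‖a.1 i‖ ≤ C) :
    ‖hat h U (b * a)‖ ≤ C * ‖hat h U b‖ :=
  le_of_tendsto_of_tendsto' (tendsto_norm_hat h U (b * a)) ((tendsto_norm_hat h U b).const_mul C)
    fun i => (h.norm_mul_right (b.2.1 i) (a.2.1 i)).trans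
      (mul_le_mul_of_nonneg_right (hC i) (norm_nonneg _))

/-- The left regular representation. -/
noncomputable def piL (a : BddS ℕ N) : UH h U →L[ℂ] UH h U :=
  extOp h U (LinearMap.mulLeft ℂ a) (by
    obtain ⟨C, hC⟩ := a.2.2
    exact ⟨C, fun b => norm_hat_mul_left h U a b hC⟩)

/-- The right regular representation. -/
noncomputable def piR (a : BddS ℕ N) : UH h U →L[ℂ] UH h U :=
  extOp h U (LinearMap.mulRight ℂ a) (by
    obtain ⟨C, hC⟩ := a.2.2
    exact ⟨C, fun b => norm_hat_mul_right h U a b hC⟩)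

theorem piL_hat (a b : BddS ℕ N) : piL h U a (hat h U b) = hat h U (a * b) := extOp_hat h U _ _ b

theorem piR_hat (a b : BddS ℕ N) : piR h U a (hat h U b) = hat h U (b * a) := extOp_hat h U _ _ b

theorem norm_piL_le (a : BddS ℕ N) {C : ℝ} (hC : ∀ i, ‖a.1 i‖ ≤ C) : ‖piL h U a‖ ≤ C := by
  refine ContinuousLinearMap.opNorm_le_bound _ ((norm_nonneg _).trans (hC 0)) fun ξ => ?_
  refine hat_induction h U (p := fun ξ => ‖piL h U a ξ‖ ≤ C * ‖ξ‖)
    (isClosed_le (by fun_prop) (by fun_prop)) (fun b => ?_) ξ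
  rw [piL_hat]
  exact norm_hat_mul_left h U a b hC

theorem inner_hat_mul_left (a b c : BddS ℕ N) :
    ⟪hat h U (star a * b), hat h U c⟫_ℂ = ⟪hat h U b, hat h U (a * c)⟫_ℂ :=
  tendsto_nhds_unique (tendsto_inner_hat h U (star a * b) c)
    ((tendsto_inner_hat h U b (a * c)).congr fun i => (inner_star_apply (a.1 i) _ _).symm)

theorem inner_hat_star (a b : BddS ℕ N) :
    ⟪hat h U (star a), hat h U b⟫_ℂ = ⟪hat h U (star b), hat h U a⟫_ℂ :=
  tendsto_nhds_unique (tendsto_inner_hat h U (star a) b)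
    ((tendsto_inner_hat h U (star b) a).congr fun i => by
      show ⟪(star (b.1 i)) Ω, a.1 i Ω⟫_ℂ = ⟪(star (a.1 i)) Ω, b.1 i Ω⟫_ℂ
      rw [inner_star_apply, inner_star_apply, h.tr _ (a.2.1 i) _ (b.2.1 i)])

theorem inner_hat_mul_right (a b c : BddS ℕ N) :
    ⟪hat h U (b * star a), hat h U c⟫_ℂ = ⟪hat h U b, hat h U (c * a)⟫_ℂ := by
  have h1 := inner_hat_star h U (a * star b) c
  have h2 := inner_hat_star h U (star b) (c * a)
  have h3 := inner_hat_mul_left h U a (star c) (star b)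
  simp only [star_mul, star_star] at h1 h2
  rw [h1, h2, h3]

theorem star_eq_of_hat {S T : UH h U →L[ℂ] UH h U}
    (hST : ∀ b c, ⟪S (hat h U b), hat h U c⟫_ℂ = ⟪hat h U b, T (hat h U c)⟫_ℂ) : star T = S := by
  rw [ContinuousLinearMap.star_eq_adjoint, eq_comm, ContinuousLinearMap.eq_adjoint_iff]
  intro ξ η
  refine hat_induction h U (p := fun ξ => ⟪S ξ, η⟫_ℂ = ⟪ξ, T η⟫_ℂ)
    (isClosed_eq (by fun_prop) (by fun_prop)) (fun b => ?_) ξ
  exact hat_induction h U (p := fun η => ⟪S (hat h U b), η⟫_ℂ = ⟪hat h U b, T η⟫_ℂ)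
    (isClosed_eq (by fun_prop) (by fun_prop)) (fun c => hST b c) η

theorem piL_star (a : BddS ℕ N) : piL h U (star a) = star (piL h U a) :=
  (star_eq_of_hat h U fun b c => by rw [piL_hat, piL_hat, inner_hat_mul_left]).symm

theorem piR_star (a : BddS ℕ N) : piR h U (star a) = star (piR h U a) :=
  (star_eq_of_hat h U fun b c => by rw [piR_hat, piR_hat, inner_hat_mul_right]).symm

/-- The left regular representation as a star algebra homomorphism. -/
noncomputable def piH : BddS ℕ N →⋆ₐ[ℂ] (UH h U →L[ℂ] UH h U) where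
  toFun := piL h U
  map_one' := op_ext h U fun b => by rw [piL_hat, one_mul, one_apply_eq_self]
  map_mul' a b := op_ext h U fun c => by
    rw [mul_apply_eq_comp, piL_hat, piL_hat, piL_hat, mul_assoc]
  map_zero' := op_ext h U fun b => by rw [piL_hat, zero_mul, map_zero]; rfl
  map_add' a b := op_ext h U fun c => by
    rw [add_apply, piL_hat, piL_hat, piL_hat, add_mul, map_add]
  commutes' r := op_ext h U fun c => by
    rw [piL_hat, ← Algebra.smul_def, map_smul, Algebra.algebraMap_eq_smul_one]; rfl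
  map_star' := piL_star h U

theorem piH_hat (a b : BddS ℕ N) : piH h U a (hat h U b) = hat h U (a * b) := piL_hat h U a b

theorem norm_piH_le (a : BddS ℕ N) {C : ℝ} (hC : ∀ i, ‖a.1 i‖ ≤ C) : ‖piH h U a‖ ≤ C :=
  norm_piL_le h U a hC

theorem norm_hat_star (a : BddS ℕ N) : ‖hat h U (star a)‖ = ‖hat h U a‖ :=
  tendsto_nhds_unique (tendsto_norm_hat h U (star a))
    ((tendsto_norm_hat h U a).congr fun i => (h.norm_star (a.2.1 i)).symm)

/-- The adjoint as a conjugate linear map. -/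
noncomputable def starPre : Pre h U →ₛₗ[starRingEnd ℂ] Pre h U where
  toFun := fun a => toPre h U (star ((toPre h U).symm a))
  map_add' := fun a b => by rw [map_add, star_add, map_add]
  map_smul' := fun c a => by rw [map_smul, star_smul, map_smul, Complex.star_def]

theorem norm_starPre (b : Pre h U) : ‖starPre h U b‖ ≤ 1 * ‖b‖ := by
  have := norm_hat_star h U ((toPre h U).symm b)
  rw [hat_apply, hat_apply, Completion.norm_coe, Completion.norm_coe,
    LinearEquiv.apply_symm_apply] at this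
  rw [one_mul]
  exact this.le

/-- The modular conjugation. -/
noncomputable def conjJ : UH h U →SL[starRingEnd ℂ] UH h U :=
  (LinearMap.mkContinuous (starPre h U) 1 (norm_starPre h U)).completion

theorem conjJ_hat (a : BddS ℕ N) : conjJ h U (hat h U a) = hat h U (star a) := by
  rw [conjJ, hat_apply, ContinuousLinearMap.completion_apply_coe]
  rfl

/-- The ultrapower as a von Neumann algebra. -/
noncomputable def UM : VonNeumannAlgebra (UH h U) := vnComm (Set.range (piR h U))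

/-- Its tracial vector. -/
noncomputable def UΩ : UH h U := hat h U 1

theorem piR_range_star : ∀ r ∈ Set.range (piR h U), star r ∈ Set.range (piR h U) := by
  rintro _ ⟨a, rfl⟩
  exact ⟨star a, piR_star h U a⟩

theorem piH_UΩ (a : BddS ℕ N) : piH h U a (UΩ h U) = hat h U a := by
  rw [UΩ, piH_hat, mul_one]

theorem piH_mem (a : BddS ℕ N) : piH h U a ∈ UM h U := by
  refine (mem_vnComm (piR_range_star h U)).2 ?_
  rintro _ ⟨b, rfl⟩
  refine op_ext h U fun c => ?_
  rw [mul_apply_eq_comp, mul_apply_eq_comp, piH_hat, piR_hat, piR_hat, piH_hat, mul_assoc]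

theorem isTV_UM : IsTV (UM h U) (UΩ h U) := by
  refine isTV_vnComm (piR_range_star h U) ?_ ?_ (conjJ h U) ?_ ?_
  · refine tendsto_nhds_unique (tendsto_norm_hat h U 1) ?_
    simp [h.norm_one]
  · intro ξ hξ
    refine inner_self_eq_zero (𝕜 := ℂ).1 ?_
    refine hat_induction h U (p := fun η => ⟪ξ, η⟫_ℂ = 0)
      (isClosed_eq (by fun_prop) (by fun_prop)) (fun b => ?_) ξ
    have := hξ _ ⟨b, rfl⟩
    rwa [UΩ, piR_hat, one_mul] at this
  · intro ξ η
    refine hat_induction h U (p := fun ξ => ⟪conjJ h U ξ, η⟫_ℂ = ⟪conjJ h U η, ξ⟫_ℂ)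
      (isClosed_eq (by fun_prop) (by fun_prop)) (fun b => ?_) ξ
    refine hat_induction h U
      (p := fun η => ⟪conjJ h U (hat h U b), η⟫_ℂ = ⟪conjJ h U η, hat h U b⟫_ℂ)
      (isClosed_eq (by fun_prop) (by fun_prop)) (fun c => ?_) η
    rw [conjJ_hat, conjJ_hat, inner_hat_star]
  · rintro _ ⟨a, rfl⟩
    rw [← piR_star, UΩ, piR_hat, piR_hat, one_mul, one_mul, conjJ_hat]

/-- The data of a concrete realisation of the tracial ultrapower. -/
structure IsUltra {K : Type} [NormedAddCommGroup K] [InnerProductSpace ℂ K] [CompleteSpace K]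
    (N : VonNeumannAlgebra H) (Ω : H) (U : Ultrafilter ℕ) (M : VonNeumannAlgebra K) (Ω' : K)
    (π : BddS ℕ N →⋆ₐ[ℂ] (K →L[ℂ] K)) : Prop where
  tv : IsTV M Ω'
  mem : ∀ a, π a ∈ M
  dense : DenseRange fun a => π a Ω'
  inner : ∀ a b, Tendsto (fun i => ⟪a.1 i Ω, b.1 i Ω⟫_ℂ) U (𝓝 ⟪π a Ω', π b Ω'⟫_ℂ)
  norm : ∀ a, Tendsto (fun i => ‖a.1 i Ω‖) U (𝓝 ‖π a Ω'‖)
  norm_le : ∀ a (C : ℝ), (∀ i, ‖a.1 i‖ ≤ C) → ‖π a‖ ≤ C

include h in
theorem exists_isUltra : ∃ (K : Type) (_ : NormedAddCommGroup K) (_ : InnerProductSpace ℂ K)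
    (_ : CompleteSpace K) (M : VonNeumannAlgebra K) (Ω' : K) (π : BddS ℕ N →⋆ₐ[ℂ] (K →L[ℂ] K)),
    IsUltra N Ω U M Ω' π := by
  refine ⟨UH h U, inferInstance, inferInstance, inferInstance, UM h U, UΩ h U, piH h U,
    isTV_UM h U, piH_mem h U, ?_, fun a b => ?_, fun a => ?_, fun a C hC => norm_piH_le h U a hC⟩
  · simp only [piH_UΩ]
    exact hat_dense h U
  · rw [piH_UΩ, piH_UΩ]
    exact tendsto_inner_hat h U a b
  · rw [piH_UΩ]
    exact tendsto_norm_hat h U a

end Pool.Agent.MP_755d6b_an.H98
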